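import Mathlib

/-! Algebra of three binary symmetric forms (the Maslov sign computation). -/

namespace Pool.Agent.Lib.MP_65c863_al

variable {k : Type*} [Field k]

/-- The symmetric form with Gram matrix `[[a, b], [b, d]]` on `k × k`. -/
def bf (a b d : k) (x y : k × k) : k :=
  a * x.1 * y.1 + b * (x.1 * y.2 + x.2 * y.1) + d * x.2 * y.2

/-- The determinant of two vectors. -/
def wd (x y : k × k) : k := x.1 * y.2 - x.2 * y.1

theorem bf_comm (a b d : k) (x y : k × k) : bf a b d x y = bf a b d y x := by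
  unfold bf; ring

theorem bf_binet (a b d : k) (x y z w : k × k) :
    bf a b d x z * bf a b d y w - bf a b d x w * bf a b d y z
      = (a * d - b ^ 2) * wd x y * wd z w := by
  unfold bf wd; ring

theorem exists_wd_ne {x : k × k} (hx : x ≠ 0) : ∃ p : k × k, wd x p ≠ 0 := by
  by_contra h
  push Not at h
  have h1 := h (1, 0)
  have h2 := h (0, 1)
  simp [wd] at h1 h2
  exact hx (Prod.ext h2 h1)

theorem eq_zero_of_bf {a b d : k} (h : a * d - b ^ 2 ≠ 0) {x : k × k}
    (hx : ∀ p, bf a b d p x = 0) : x = 0 := by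
  have h1 := hx (1, 0)
  have h2 := hx (0, 1)
  simp only [bf] at h1 h2
  refine Prod.ext ?_ ?_
  · apply mul_left_cancel₀ h
    simp only [Prod.fst_zero]
    linear_combination d * h1 - b * h2
  · apply mul_left_cancel₀ h
    simp only [Prod.snd_zero]
    linear_combination a * h2 - b * h1

theorem exists_rad {a b d : k} (h : a * d - b ^ 2 = 0) :
    ∃ x : k × k, x ≠ 0 ∧ ∀ p, bf a b d p x = 0 := by
  by_cases ha : a = 0
  · have hb : b = 0 := by
      have : b ^ 2 = 0 := by rw [ha] at h; linear_combination -h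
      exact pow_eq_zero_iff (two_ne_zero) |>.1 this
    refine ⟨(1, 0), by simp, fun p => ?_⟩
    simp [bf, ha, hb]
  · refine ⟨(-b, a), by simp [ha], fun p => ?_⟩
    simp only [bf]
    linear_combination p.2 * h

/-- The sign lemma. -/
theorem sign_lemma {a1 b1 d1 a2 b2 d2 a3 b3 d3 j1 j2 j3 : k} {U V W : k × k}
    (h1 : a1 * d1 - b1 ^ 2 ≠ 0) (h2 : a2 * d2 - b2 ^ 2 ≠ 0)
    (hj2 : j2 ≠ 0) (hW : W ≠ 0)
    (e1 : ∀ p, bf a3 b3 d3 p U = -j2 * bf a1 b1 d1 p W)
    (e3 : ∀ p, bf a2 b2 d2 p W = j1 * bf a3 b3 d3 p V)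
    (e2 : ∀ p, bf a2 b2 d2 p U = -j3 * bf a1 b1 d1 p V)
    (e0 : bf a3 b3 d3 V U = 0) :
    IsSquare ((-(a1 * d1 - b1 ^ 2) * j1) * (-(a2 * d2 - b2 ^ 2) * j2)
      * (-(a3 * d3 - b3 ^ 2) * j3)) := by
  have hU : U ≠ 0 := by
    rintro rfl
    apply hW
    apply eq_zero_of_bf h1
    intro p
    have := e1 p
    simp only [bf, Prod.fst_zero, Prod.snd_zero] at this ⊢
    apply mul_left_cancel₀ hj2
    linear_combination this
  have hV : V ≠ 0 := by
    rintro rfl
    apply hW
    apply eq_zero_of_bf h2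
    intro p
    have := e3 p
    simp only [bf, Prod.fst_zero, Prod.snd_zero] at this ⊢
    linear_combination this
  have f1 : bf a1 b1 d1 V W = 0 := by
    apply mul_left_cancel₀ hj2
    have := e1 V
    linear_combination this - e0
  have f2 : bf a2 b2 d2 W U = 0 := by
    rw [bf_comm, e3 U, bf_comm, e0, mul_zero]
  obtain ⟨p, hp⟩ := exists_wd_ne hV
  obtain ⟨r, hr⟩ := exists_wd_ne hW
  obtain ⟨s, hs⟩ := exists_wd_ne hU
  have g1 := bf_binet a1 b1 d1 V p W r
  have g2 := bf_binet a2 b2 d2 W r U s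
  have g3 := bf_binet a3 b3 d3 V p U s
  rw [f1] at g1
  rw [f2, bf_comm a2 b2 d2 W s, e3 s, e2 r, bf_comm a1 b1 d1 r V] at g2
  rw [e0, e1 p, bf_comm a3 b3 d3 V s] at g3
  set X1 := bf a1 b1 d1 V r
  set X2 := bf a1 b1 d1 p W
  set X3 := bf a3 b3 d3 s V
  set s1 := a1 * d1 - b1 ^ 2
  set s2 := a2 * d2 - b2 ^ 2
  set s3 := a3 * d3 - b3 ^ 2
  have t1 : s1 = -(X1 * X2) / (wd V p * wd W r) := by
    field_simp; linear_combination -g1
  have t2 : s2 = (j1 * j3 * X1 * X3) / (wd W r * wd U s) := by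
    field_simp; linear_combination -g2
  have t3 : s3 = (j2 * X2 * X3) / (wd V p * wd U s) := by
    field_simp; linear_combination -g3
  refine ⟨j1 * j2 * j3 * X1 * X2 * X3 / (wd V p * wd W r * wd U s), ?_⟩
  rw [t1, t2, t3]
  field_simp

theorem not_isSquare_three [Finite k] {x y z : k} (hx : ¬ IsSquare x) (hy : ¬ IsSquare y)
    (hz : ¬ IsSquare z) : ¬ IsSquare (x * y * z) := by
  classical
  have := Fintype.ofFinite k
  rw [← quadraticChar_neg_one_iff_not_isSquare] at hx hy hz ⊢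
  rw [map_mul, map_mul, hx, hy, hz]
  norm_num

theorem card_nonsquares [Fintype k] [DecidableEq k] (hk : ringChar k ≠ 2) :
    2 * (Finset.univ.filter fun m : k => ¬ IsSquare m).card + 1 = Fintype.card k := by
  have h0 := quadraticChar_sum_zero (F := k) hk
  have h1 : ∀ a : k, (2 * (if ¬ IsSquare a then 1 else 0) + (if a = 0 then 1 else 0)
      + quadraticChar k a : ℤ) = 1 := by
    intro a
    by_cases ha : a = 0
    · subst ha; simp
    · by_cases hs : IsSquare a
      · rw [(quadraticChar_one_iff_isSquare ha).2 hs]; simp [ha, hs]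
      · rw [quadraticChar_neg_one_iff_not_isSquare.2 hs]; simp [ha, hs]
  have h2 := Finset.sum_congr (rfl : (Finset.univ : Finset k) = Finset.univ) fun a _ => h1 a
  rw [Finset.sum_add_distrib, Finset.sum_add_distrib, h0, ← Finset.mul_sum,
    Finset.sum_boole, Finset.sum_ite_eq'] at h2
  simp only [Finset.mem_univ, if_true, add_zero, Finset.sum_const, Finset.card_univ,
    nsmul_eq_mul, mul_one] at h2
  exact_mod_cast h2

end Pool.Agent.Lib.MP_65c863_al
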