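import Pool.Agent.Lib.MP_65c863_al.H98Proj

/-! Product-free sets in `PSU(3)`: the counts. -/

namespace Pool.Agent.Lib.MP_65c863_al.H98

open Matrix Finset

theorem exists_cut {X D : Type} [Finite D] (S : Finset X) (f g : X → D)
    (h : ∀ x ∈ S, f x ≠ g x) :
    ∃ σ : D → Bool, S.card ≤ 4 * (S.filter fun x => σ (f x) = true ∧ σ (g x) = false).card := by
  classical
  have := Fintype.ofFinite D
  by_contra hcon
  push Not at hcon
  have h1 : ∀ x ∈ S, Fintype.card (D → Bool) ≤
      4 * (univ.filter fun σ : D → Bool => σ (f x) = true ∧ σ (g x) = false).card := by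
    intro x hx
    have h4 : 4 = (univ : Finset (Bool × Bool)).card := by simp
    rw [h4, ← card_product, ← card_univ]
    refine card_le_card_of_injOn
      (fun σ => ((σ (f x), σ (g x)), Function.update (Function.update σ (f x) true) (g x) false))
      ?_ ?_
    · intro σ _
      simp [Function.update_of_ne (h x hx)]
    · intro σ _ σ' _ hσ
      simp only [Prod.mk.injEq] at hσ
      ext d
      by_cases h2 : d = g x
      · rw [h2, hσ.1.2]
      by_cases h3 : d = f x
      · rw [h3, hσ.1.1]
      have h5 := congrFun hσ.2 d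
      rwa [Function.update_of_ne h2, Function.update_of_ne h2, Function.update_of_ne h3,
        Function.update_of_ne h3] at h5
  have h2 : ∑ x ∈ S, (univ.filter fun σ : D → Bool => σ (f x) = true ∧ σ (g x) = false).card =
      ∑ σ : D → Bool, (S.filter fun x => σ (f x) = true ∧ σ (g x) = false).card := by
    simp only [card_filter]
    exact sum_comm
  have h3 := sum_le_sum h1
  have h5 : ∑ σ : D → Bool, 4 * (S.filter fun x => σ (f x) = true ∧ σ (g x) = false).card <
      ∑ _σ : D → Bool, S.card := sum_lt_sum_of_nonempty univ_nonempty fun σ _ => hcon σ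
  rw [← mul_sum, h2, sum_const, smul_eq_mul] at h3
  rw [← mul_sum, sum_const, smul_eq_mul, card_univ, mul_comm (Fintype.card _)] at h5
  omega

variable {K : Type} [Field K] [StarRing K] [Fintype K] [DecidableEq K]

/-- The elements of norm one. -/
def normOne (K : Type) [Field K] [StarRing K] [Fintype K] [DecidableEq K] : Finset K :=
  univ.filter fun x => x * star x = 1

theorem mem_normOne {x : K} : x ∈ normOne K ↔ x * star x = 1 := by
  simp [normOne]

theorem card_le_sq_fixed {t : K} (ht : star t ≠ t) : Fintype.card K ≤ (fixedSet K).card ^ 2 := by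
  rw [sq, ← card_univ]
  refine card_le_mul_card_image_of_maps_to (f := fun z => z + star z) ?_ _
    fun d _ => card_trace_le ht d
  intro z _
  simp [mem_fixedSet, add_comm]

theorem fixed_lt_normOne {t : K} (ht : star t ≠ t) :
    (fixedSet K).card + 1 ≤ (normOne K).card := by
  obtain ⟨t0, ht0⟩ := exists_trace_one ht
  have ha : star t - t ≠ 0 := sub_ne_zero.2 ht
  have h1 : (1 : K) ∈ normOne K := by simp [mem_normOne]
  rw [← card_erase_add_one h1, Nat.add_le_add_iff_right]
  have htr : ∀ r ∈ fixedSet K, t0 + (star t - t) * r + star (t0 + (star t - t) * r) = 1 := by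
    intro r hr
    simp only [star_add, star_mul', star_sub, star_star, mem_fixedSet.1 hr]
    linear_combination ht0
  have hne : ∀ r ∈ fixedSet K, t0 + (star t - t) * r ≠ 0 := by
    intro r hr h
    have := htr r hr
    rw [h] at this
    simp at this
  refine card_le_card_of_injOn (fun r => 1 - (t0 + (star t - t) * r)⁻¹) ?_ ?_
  · intro r hr
    have h2 := htr r (mem_coe.1 hr)
    have h3 := hne r (mem_coe.1 hr)
    simp only [mem_coe, mem_erase, mem_normOne]
    generalize t0 + (star t - t) * r = y at *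
    have h4 : star y ≠ 0 := star_ne_zero.2 h3
    refine ⟨by simpa using h3, ?_⟩
    rw [star_sub, star_one, star_inv₀]
    field_simp
    linear_combination -h2
  · intro r _ r' _ h
    have h2 : 1 - (t0 + (star t - t) * r)⁻¹ = 1 - (t0 + (star t - t) * r')⁻¹ := h
    rw [sub_right_inj, _root_.inv_inj, add_right_inj] at h2
    exact mul_left_cancel₀ ha h2

theorem exists_arc (h4 : 4 ≤ (normOne K).card) :
    ∃ O O2 : Finset K, O ⊆ normOne K ∧ (∀ x ∈ O, ∀ y ∈ O, x * y ∈ O2) ∧
      (normOne K).card ≤ 12 * O.card ∧ 24 * O2.card ≤ 7 * (normOne K).card := by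
  have hc : IsCyclic (unitary K) :=
    isCyclic_of_injective_ringHom (unitary K).subtype Subtype.val_injective
  obtain ⟨γ, hγ⟩ := IsCyclic.exists_ofOrder_eq_natCard (α := unitary K)
  have hN : Nat.card (unitary K) = (normOne K).card := by
    rw [← Fintype.card_coe, ← Nat.card_eq_fintype_card]
    refine Nat.card_congr (Equiv.subtypeEquivRight fun x => ?_)
    rw [Unitary.mem_iff, mem_normOne, mul_comm (star x), and_self]
  have ho : orderOf (γ : K) = (normOne K).card := by
    rw [← hN, ← hγ]
    exact orderOf_injective (unitary K).subtype Subtype.val_injective γ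
  obtain ⟨N, hN'⟩ : ∃ N, N = (normOne K).card := ⟨_, rfl⟩
  rw [← hN'] at h4 ho
  refine ⟨(range (N / 12 + 1)).image fun i => (γ : K) ^ i,
    (range (2 * (N / 12) + 1)).image fun i => (γ : K) ^ i, ?_, ?_, ?_, ?_⟩
  · intro x hx
    obtain ⟨i, -, rfl⟩ := mem_image.1 hx
    rw [mem_normOne, star_pow, ← mul_pow, (Unitary.mem_iff.1 γ.2).2, one_pow]
  · intro x hx y hy
    obtain ⟨i, hi, rfl⟩ := mem_image.1 hx
    obtain ⟨j, hj, rfl⟩ := mem_image.1 hy
    refine mem_image.2 ⟨i + j, ?_, pow_add _ _ _⟩
    rw [mem_range] at hi hj ⊢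
    omega
  · rw [card_image_of_injOn, card_range, ← hN']
    · omega
    · refine pow_injOn_Iio_orderOf.mono ?_
      intro i hi
      rw [mem_coe, mem_range] at hi
      rw [Set.mem_Iio, ho]
      omega
  · have := card_image_le (s := range (2 * (N / 12) + 1)) (f := fun i => (γ : K) ^ i)
    rw [card_range] at this
    rw [← hN']
    omega

theorem card_pairs {O O2 : Finset K} (h1 : (normOne K).card ≤ 12 * O.card)
    (hO : O ⊆ normOne K) (h2 : 24 * O2.card ≤ 7 * (normOne K).card) :
    (normOne K).card ^ 2 ≤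
      96 * ((O ×ˢ normOne K).filter fun z => z.2 ^ 3 * z.1 ^ 2 ∉ O2).card := by
  have h3 := card_filter_add_card_filter_not (s := O ×ˢ normOne K)
    (fun z => z.2 ^ 3 * z.1 ^ 2 ∈ O2)
  have h4 : ((O ×ˢ normOne K).filter fun z => z.2 ^ 3 * z.1 ^ 2 ∈ O2).card ≤
      3 * (O ×ˢ O2).card := by
    refine card_le_mul_card_image_of_maps_to (f := fun z => (z.1, z.2 ^ 3 * z.1 ^ 2)) ?_ _ ?_
    · intro z hz
      simp only [mem_filter, mem_product] at hz ⊢
      exact ⟨hz.1.1, hz.2⟩
    · rintro ⟨i, c⟩ hic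
      have hi : i ≠ 0 := left_ne_zero_of_mul_eq_one (mem_normOne.1 (hO (mem_product.1 hic).1))
      refine le_trans ?_ (card_cube_le (c / i ^ 2))
      refine card_le_card_of_injOn (fun z => z.2) ?_ ?_
      · intro z hz
        simp only [mem_coe, mem_filter, Prod.mk.injEq, mem_univ, true_and] at hz ⊢
        rw [← hz.2.2, hz.2.1]
        field_simp
      · intro z hz z' hz' h
        simp only [mem_coe, mem_filter, Prod.mk.injEq] at hz hz'
        exact Prod.ext (hz.2.1.trans hz'.2.1.symm) h
  rw [card_product] at h3 h4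
  generalize ((O ×ˢ normOne K).filter fun z => z.2 ^ 3 * z.1 ^ 2 ∈ O2).card = b at *
  generalize ((O ×ˢ normOne K).filter fun z => z.2 ^ 3 * z.1 ^ 2 ∉ O2).card = a at *
  generalize (normOne K).card = N at *
  have h5 : O.card * (24 * O2.card) ≤ O.card * (7 * N) := Nat.mul_le_mul_left _ h2
  have h6 : N * N ≤ 12 * O.card * N := Nat.mul_le_mul_right _ h1
  nlinarith

open Classical in
theorem card_adm [Fintype (SU K)] {t : K} (ht : star t ≠ t) {p v w : Fin 3 → K}
    (F : Frame p v w) {k : K} (hk : Nu w p k) {O : Finset K} (O2 : Finset K)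
    (hO : O ⊆ normOne K) :
    (fixedSet K).card * ((fixedSet K).card - 1) *
      ((O ×ˢ normOne K).filter fun z => z.2 ^ 3 * z.1 ^ 2 ∉ O2).card *
      (univ.filter fun g : SU K => act g w = w).card ≤
      (univ.filter fun g : SU K => Adm v w k O O2 (act g w)).card := by
  have ha : star t - t ≠ 0 := sub_ne_zero.2 ht
  obtain ⟨t0, ht0⟩ := exists_trace_one ht
  have h90 : ∀ i : K, ∃ s : K, i * star i = 1 → s ≠ 0 ∧ s = i * star s := by
    intro i
    by_cases h : 1 + i = 0
    · refine ⟨star t - t, fun _ => ⟨ha, ?_⟩⟩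
      rw [star_sub, star_star]
      linear_combination (star t - t) * h
    · refine ⟨1 + i, fun hi => ⟨h, ?_⟩⟩
      rw [star_add, star_one]
      linear_combination -hi
  choose τ hτ using h90
  let q : K → Fin 3 → K := fun r => p + ((star t - t) * r * hf p v) • v
  have hq : ∀ r ∈ fixedSet K, hf (q r) (q r) = 0 ∧ hf w (q r) = 0 ∧ Nu w (q r) k := by
    intro r hr
    obtain ⟨T, hT⟩ := exists_eich F.hv F.hwv F.hww 0 ((star t - t) * r) (by
      simp only [star_mul', star_sub, star_star, mem_fixedSet.1 hr]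
      ring)
    have hTw : act T w = w := by rw [hT, eich_w F.hwv F.hww, zero_smul, add_zero]
    have hTp : act T p = q r := by simp [hT, eich, q]
    refine ⟨by rw [← hTp, hf_act, F.hp], by rw [← hTp, ← hTw, hf_act, F.hwp], ?_⟩
    have := hk.map T
    rwa [hTw, hTp] at this
  have hqv : ∀ r, hf (q r) v = hf p v := by
    intro r
    simp [q, hf_add_left, hf_smul_left, F.hv]
  have hqp : ∀ r, hf (q r) p = (star t - t) * r * hf p v * hf v p := by
    intro r
    simp [q, hf_add_left, hf_smul_left, F.hp]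
  let P := (fixedSet K ×ˢ (fixedSet K).erase 0) ×ˢ
    ((O ×ˢ normOne K).filter fun z => z.2 ^ 3 * z.1 ^ 2 ∉ O2)
  let y : (K × K) × K × K → Fin 3 → K := fun z => z.2.2 • (w + (τ z.2.1 * z.1.2) • q z.1.1)
  have hG : ∀ z, ∃ g : SU K, z ∈ P → act g w = y z := by
    intro z
    by_cases hz : z ∈ P
    · simp only [P, mem_product, mem_filter] at hz
      obtain ⟨D, hD⟩ := exists_scale ht F (mem_normOne.1 hz.2.1.2)
      obtain ⟨h1, h2, -⟩ := hq _ hz.1.1
      obtain ⟨E, hE⟩ := exists_eich h1 h2 F.hww (τ z.2.1 * z.1.2)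
        ((τ z.2.1 * z.1.2) * star (τ z.2.1 * z.1.2) * t0) (by
          generalize τ z.2.1 * z.1.2 = s
          simp only [star_mul', star_star]
          linear_combination (s * star s) * ht0)
      exact ⟨E * D, fun _ => by rw [act_mul, hD, act_smul, hE, eich_w h2 F.hww]⟩
    · exact ⟨1, fun h => absurd h hz⟩
  choose G hG using hG
  have hal : ∀ z ∈ P, al w (y z) = z.2.2 ∧ uo w (y z) = (τ z.2.1 * z.1.2) • q z.1.1 := by
    intro z hz
    simp only [P, mem_product, mem_filter] at hz
    have h1 : al w (y z) = z.2.2 := by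
      simp [al, y, hf_add_left, hf_smul_left, F.hww, hf_swap (hq _ hz.1.1).2.1]
    refine ⟨h1, ?_⟩
    rw [uo, h1, smul_smul, mul_comm, mem_normOne.1 hz.2.1.2, one_smul, add_sub_cancel_left]
  have h0 : (0 : K) ∈ fixedSet K := by simp [mem_fixedSet]
  rw [← card_erase_of_mem h0, ← card_product, ← card_product, ← card_product]
  refine card_le_card_of_injOn (fun z => G z.1 * z.2) ?_ ?_
  · rintro ⟨z, h⟩ hz
    obtain ⟨hz, hh⟩ := mem_product.1 (mem_coe.1 hz)
    have hh' := (mem_filter.1 hh).2
    obtain ⟨h1, h2⟩ := hal z hz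
    simp only [mem_coe, mem_filter, mem_univ, true_and]
    rw [act_mul, hh', hG z hz, Adm, h1, h2]
    simp only [mem_product, mem_filter, mem_erase] at hz
    obtain ⟨h3, h4⟩ := hτ _ (mem_normOne.1 (hO hz.2.1.1))
    refine ⟨mem_normOne.1 hz.2.1.2, ?_, z.2.1, hz.2.1.1, ?_, hz.2.2⟩
    · rw [hf_smul_left, hqv]
      exact mul_ne_zero (mul_ne_zero h3 hz.1.2.1) F.hpv
    · have h5 := (hq _ hz.1.1).2.2.smul (s := 1) (t := τ z.2.1 * z.1.2) (k' := k * z.2.1) (by
        rw [star_mul', mem_fixedSet.1 hz.1.2.2]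
        linear_combination (k * z.1.2) * h4)
      rwa [one_smul] at h5
  · rintro ⟨z, h⟩ hz ⟨z', h'⟩ hz' he
    obtain ⟨hz, hh⟩ := mem_product.1 (mem_coe.1 hz)
    obtain ⟨hz', hh'⟩ := mem_product.1 (mem_coe.1 hz')
    have he' : G z * h = G z' * h' := he
    have h1 : y z = y z' := by
      rw [← hG z hz, ← hG z' hz', ← (mem_filter.1 hh).2, ← act_mul, he', act_mul,
        (mem_filter.1 hh').2, (mem_filter.1 hh).2]
    obtain ⟨a1, a2⟩ := hal z hz
    obtain ⟨b1, b2⟩ := hal z' hz'
    rw [h1, b1] at a1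
    rw [h1, b2] at a2
    simp only [mem_product, mem_filter, mem_erase] at hz hz'
    obtain ⟨h3, h4⟩ := hτ _ (mem_normOne.1 (hO hz.2.1.1))
    obtain ⟨h3', h4'⟩ := hτ _ (mem_normOne.1 (hO hz'.2.1.1))
    have c1 := congrArg (fun x => hf x v) a2
    have c2 := congrArg (fun x => hf x p) a2
    simp only [hf_smul_left, hqv, hqp] at c1 c2
    have c3 : τ z'.2.1 * z'.1.2 = τ z.2.1 * z.1.2 := mul_right_cancel₀ F.hpv c1
    have hs0 : τ z.2.1 * z.1.2 ≠ 0 := mul_ne_zero h3 hz.1.2.1
    have c4 : z'.1.1 = z.1.1 := by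
      rw [c3] at c2
      exact mul_left_cancel₀ ha (mul_right_cancel₀ F.hpv (mul_right_cancel₀ F.hvp
        (mul_left_cancel₀ hs0 c2)))
    have c5 : z'.2.1 = z.2.1 := by
      have c6 := congrArg star c3
      rw [star_mul', star_mul', mem_fixedSet.1 hz.1.2.2, mem_fixedSet.1 hz'.1.2.2] at c6
      apply mul_right_cancel₀ (mul_ne_zero (star_ne_zero.2 h3) hz.1.2.1)
      linear_combination c3 + z.1.2 * h4 - z'.1.2 * h4' - z'.2.1 * c6
    have c7 : z'.1.2 = z.1.2 := by
      rw [c5] at c3
      exact mul_left_cancel₀ h3 c3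
    have c8 : z' = z := Prod.ext (Prod.ext c4 c7) (Prod.ext c5 a1)
    subst c8
    rw [mul_left_cancel he']

omit [Fintype K] in
open Classical in
theorem adm_half [Fintype (SU K)] {t : K} (ht : star t ≠ t) {p v w : Fin 3 → K}
    (F : Frame p v w) (k : K) (O O2 : Finset K) :
    (univ.filter fun g : SU K => Adm v w k O O2 (act g w)).card ≤
      2 * (univ.filter fun g : SU K => Adm v w k O O2 (act g w) ∧
        dir p v (uo w (act g w)) ≠ dir p v (act g⁻¹ (uo w (act g w)))).card := by
  have ha : star t - t ≠ 0 := sub_ne_zero.2 ht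
  obtain ⟨T, hT⟩ := exists_eich F.hv F.hwv F.hww 0 (star t - t) (by simp)
  have hTw : act T w = w := by rw [hT, eich_w F.hwv F.hww, zero_smul, add_zero]
  have hTw' : act T⁻¹ w = w := by
    apply act_inj T
    rw [act_act_inv, hTw]
  have hTx : ∀ x, act T x = x + ((star t - t) * hf x v) • v := by
    intro x
    simp [hT, eich]
  have h1 := card_filter_add_card_filter_not
    (s := univ.filter fun g : SU K => Adm v w k O O2 (act g w))
    (fun g => dir p v (uo w (act g w)) ≠ dir p v (act g⁻¹ (uo w (act g w))))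
  rw [filter_filter, filter_filter] at h1
  have h2 : (univ.filter fun g : SU K => Adm v w k O O2 (act g w) ∧
        ¬ dir p v (uo w (act g w)) ≠ dir p v (act g⁻¹ (uo w (act g w)))).card ≤
      (univ.filter fun g : SU K => Adm v w k O O2 (act g w) ∧
        dir p v (uo w (act g w)) ≠ dir p v (act g⁻¹ (uo w (act g w)))).card := by
    refine card_le_card_of_injOn (fun g => g * T⁻¹) ?_ ?_
    · intro g hg
      simp only [mem_coe, mem_filter, mem_univ, true_and, not_not] at hg ⊢
      rw [act_mul, hTw', _root_.mul_inv_rev, inv_inv, act_mul, hTx]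
      refine ⟨hg.1, ?_⟩
      have h3 := hg.1.2.1
      have h4 := hg.2
      rw [h4]
      generalize act g⁻¹ (uo w (act g w)) = x at *
      have h5 : hf x v ≠ 0 := by
        intro h
        simp [dir, h, h3] at h4
      have e1 : hf (x + ((star t - t) * hf x v) • v) v = hf x v := by
        simp [hf_add_left, hf_smul_left, F.hv]
      unfold dir
      rw [e1, if_neg h5, if_neg h5, hf_add_left, hf_smul_left]
      intro h
      rw [Option.some.injEq, div_left_inj' h5, left_eq_add] at h
      exact mul_ne_zero (mul_ne_zero ha h5) F.hvp h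
    · intro g _ g' _ h
      exact mul_right_cancel h
  omega

end Pool.Agent.Lib.MP_65c863_al.H98
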