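import Pool.Agent.Lib.MP_65c863_al.H98Unitary

/-! Product-free sets in `SU(3)` over a finite field: the set and the two counts. -/

namespace Pool.Agent.Lib.MP_65c863_al.H98

open Matrix Finset

variable {K : Type} [Field K] [StarRing K]

/-- Two isotropic vectors and a vector of norm `-1` orthogonal to both. -/
structure Frame (p v w : Fin 3 → K) : Prop where
  hp : hf p p = 0
  hv : hf v v = 0
  hwp : hf w p = 0
  hwv : hf w v = 0
  hww : hf w w = -1
  hpv : hf p v ≠ 0
  span : ∀ x, hf p x = 0 → hf v x = 0 → hf w x = 0 → x = 0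

theorem exists_frame [Finite K] {t : K} (ht : star t ≠ t) : ∃ p v w : Fin 3 → K, Frame p v w := by
  obtain ⟨q, hq⟩ := CharP.exists K
  have hq0 : q ≠ 0 := CharP.char_ne_zero_of_finite K q
  have : NeZero q := ⟨hq0⟩
  obtain ⟨a, b, hab⟩ := CharP.sq_add_sq K q (-1)
  have hab' : (a : K) ^ 2 + (b : K) ^ 2 = -1 := by simpa using hab
  have ht0 : t ≠ 0 := by
    rintro rfl
    exact ht (star_zero _)
  have hs0 : star t ≠ 0 := star_ne_zero.2 ht0
  obtain ⟨l, hl, hl1⟩ : ∃ l : K, l * star l = 1 ∧ l ≠ 1 := by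
    refine ⟨t / star t, ?_, ?_⟩
    · rw [star_div₀, star_star]
      field_simp
    · rw [Ne, div_eq_one_iff_eq hs0]
      exact ht.symm
  have hl2 : star l ≠ 1 := by
    intro h
    rw [h, mul_one] at hl
    exact hl1 hl
  refine ⟨![1, a, b], ![l, a, b], ![0, b, -a], ?_, ?_, ?_, ?_, ?_, ?_, ?_⟩
  · simp [hf, dotProduct, Fin.sum_univ_three]
    linear_combination hab'
  · simp [hf, dotProduct, Fin.sum_univ_three]
    linear_combination hab' + hl
  · simp [hf, dotProduct, Fin.sum_univ_three]
    ring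
  · simp [hf, dotProduct, Fin.sum_univ_three]
    ring
  · simp [hf, dotProduct, Fin.sum_univ_three]
    linear_combination hab'
  · simp [hf, dotProduct, Fin.sum_univ_three]
    intro h
    apply hl2
    linear_combination h - hab'
  · intro x h1 h2 h3
    simp [hf, dotProduct, Fin.sum_univ_three] at h1 h2 h3
    have e0 : star (x 0) = 0 := by
      apply mul_left_cancel₀ (sub_ne_zero.2 hl1)
      linear_combination h2 - h1
    have e1 : star (x 1) = 0 := by
      linear_combination (star (x 1)) * hab' - (a : K) * h1 - (b : K) * h3 + (a : K) * e0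
    have e2 : star (x 2) = 0 := by
      linear_combination (star (x 2)) * hab' - (b : K) * h1 + (a : K) * h3 + (b : K) * e0
    ext i
    fin_cases i
    · exact star_eq_zero.1 e0
    · exact star_eq_zero.1 e1
    · exact star_eq_zero.1 e2

theorem Frame.p_ne {p v w : Fin 3 → K} (F : Frame p v w) : p ≠ 0 := by
  intro h
  apply F.hpv
  simp [h, hf]

theorem Frame.hvp {p v w : Fin 3 → K} (F : Frame p v w) : hf v p ≠ 0 := fun h => F.hpv (hf_swap h)

theorem Frame.v_ne {p v w : Fin 3 → K} (F : Frame p v w) : v ≠ 0 := by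
  intro h
  apply F.hpv
  simp [h, hf]

theorem exists_trace_one {t : K} (ht : star t ≠ t) : ∃ t0 : K, t0 + star t0 = 1 := by
  have ha : star t - t ≠ 0 := sub_ne_zero.2 ht
  have ha' : t - star t ≠ 0 := sub_ne_zero.2 ht.symm
  refine ⟨star t / (star t - t), ?_⟩
  rw [star_div₀, star_sub, star_star]
  field_simp
  ring

/-- The product-free set attached to a frame and two sets of scalars. -/
def good (p w : Fin 3 → K) (I O : Finset K) (g : SU K) : Prop :=
  hf (act g p) p ≠ 0 ∧ ∃ s ∈ I, ∃ s' ∈ O, act g (w + s • p) = w + s' • p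

theorem good_free {p v w : Fin 3 → K} (F : Frame p v w) {I O : Finset K} (hIO : Disjoint I O)
    {a b : SU K} (ha : good p w I O a) (hb : good p w I O b) : ¬ good p w I O (a * b) := by
  rintro ⟨-, s3, -, r3, -, h3⟩
  obtain ⟨ha0, s1, hs1, r1, -, h1⟩ := ha
  obtain ⟨hb0, s2, -, r2, hr2, h2⟩ := hb
  have hpw : hf p w = 0 := hf_swap F.hwp
  have hm : ∀ s r : K, hf (w + s • p) (w + r • p) = -1 := by
    intro s r
    simp [hf_add_left, hf_add_right, hf_smul_left, hf_smul_right, F.hp, F.hwp, hpw, F.hww]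
  have hne : r2 ≠ s1 := by
    rintro rfl
    exact Finset.disjoint_left.1 hIO hs1 hr2
  have e1 : hf (w + r1 • p) (act a (w + r2 • p)) = -1 := by rw [← h1, hf_act, hm]
  have e3 : hf (w + r3 • p) (act a (w + r2 • p)) = -1 := by
    rw [← h3, ← h2, ← act_mul, hf_act, hm]
  have e4 : (r1 - r3) * hf p (act a (w + r2 • p)) = 0 := by
    rw [hf_add_left, hf_smul_left] at e1 e3
    linear_combination e1 - e3
  rcases mul_eq_zero.1 e4 with h | h
  · have h4 : r1 = r3 := sub_eq_zero.1 h
    subst h4
    have h5 : w + s1 • p = act b (w + s3 • p) := by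
      apply act_inj a
      rw [h1, ← act_mul, h3]
    have h6 := congrArg (fun y => hf y p) h5
    have h7 := congrArg (fun y => hf y p) h2
    simp only [act_add, act_smul, hf_add_left, hf_smul_left, F.hp, F.hwp] at h6 h7
    have h8 : s2 = s3 := by
      apply mul_right_cancel₀ hb0
      linear_combination h6 + h7
    subst h8
    rw [h2, add_right_inj] at h5
    exact hne (smul_left_injective K F.p_ne h5).symm
  · have h6 := congrArg (fun y => hf y p) h1
    have h7 := hf_swap h
    simp only [act_add, act_smul, hf_add_left, hf_smul_left, F.hp, F.hwp] at h6 h7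
    apply hne
    apply mul_right_cancel₀ ha0
    linear_combination h7 - h6

variable [Fintype K] [DecidableEq K]

open Classical in
theorem card_le_stab [Fintype (SU K)] {t : K} (ht : star t ≠ t) {w : Fin 3 → K}
    (hww : hf w w = -1) :
    Fintype.card (SU K) ≤ (univ.filter fun g : SU K => act g w = w).card *
      (((fixedSet K).card + 1) * Fintype.card K ^ 2) := by
  refine le_trans ?_ (Nat.mul_le_mul_left _ (card_sphere_le ht (-1)))
  rw [← card_univ]
  refine card_le_mul_card_image_of_maps_to (f := fun g => act g w) ?_ _ ?_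
  · intro g _
    simp [hf_act, hww]
  · intro x _
    rcases (univ.filter fun g : SU K => act g w = x).eq_empty_or_nonempty with h | ⟨g0, h0⟩
    · simp [h]
    have h0' := (mem_filter.1 h0).2
    refine card_le_card_of_injOn (fun g => g0⁻¹ * g) ?_ ?_
    · intro g hg
      have hg' := (mem_filter.1 (mem_coe.1 hg)).2
      simp only [mem_coe, mem_filter, mem_univ, true_and]
      rw [act_mul, hg', ← h0', act_inv_act]
    · intro g _ g' _ h
      exact mul_left_cancel h

omit [Fintype K] in
open Classical in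
theorem stab_half [Fintype (SU K)] {t : K} (ht : star t ≠ t) {p v w : Fin 3 → K}
    (F : Frame p v w) :
    (univ.filter fun g : SU K => act g w = w).card ≤
      2 * (univ.filter fun g : SU K => act g w = w ∧ hf (act g p) p ≠ 0).card := by
  have ha : star t - t ≠ 0 := sub_ne_zero.2 ht
  obtain ⟨T, hT⟩ := exists_eich F.hv F.hwv F.hww 0 (star t - t) (by simp)
  have hTw : act T w = w := by rw [hT, eich_w F.hwv F.hww, zero_smul, add_zero]
  have hTp : act T p = p + ((star t - t) * hf p v) • v := by simp [hT, eich]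
  have h1 := card_filter_add_card_filter_not (s := univ.filter fun g : SU K => act g w = w)
    (fun g => hf (act g p) p ≠ 0)
  rw [filter_filter, filter_filter] at h1
  have h2 : (univ.filter fun g : SU K => act g w = w ∧ ¬ hf (act g p) p ≠ 0).card ≤
      (univ.filter fun g : SU K => act g w = w ∧ hf (act g p) p ≠ 0).card := by
    refine card_le_card_of_injOn (fun g => g * T) ?_ ?_
    · intro g hg
      simp only [mem_coe, mem_filter, mem_univ, true_and, not_not] at hg ⊢
      refine ⟨by rw [act_mul, hTw, hg.1], fun h => ?_⟩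
      rw [act_mul, hTp, act_add, act_smul, hf_add_left, hf_smul_left, hg.2, zero_add] at h
      have h3 : hf (act g v) p = 0 := (mul_eq_zero.1 h).resolve_left (mul_ne_zero ha F.hpv)
      have key : ∀ y, hf (act g y) p = hf y (act g⁻¹ p) := by
        intro y
        rw [← hf_act g y, act_act_inv]
      have h4 : act g⁻¹ p = 0 := by
        apply F.span
        · rw [← key, hg.2]
        · rw [← key, h3]
        · rw [← key, hg.1, F.hwp]
      apply F.p_ne
      rw [← act_act_inv g p, h4]
      simp [act]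
    · intro g _ g' _ h
      exact mul_right_cancel h
  omega

omit [Fintype K] in
open Classical in
theorem card_good [Fintype (SU K)] {t : K} (ht : star t ≠ t) {p v w : Fin 3 → K}
    (F : Frame p v w) (I O : Finset K) :
    O.card * I.card * (univ.filter fun g : SU K => act g w = w ∧ hf (act g p) p ≠ 0).card ≤
      (univ.filter (good p w I O)).card := by
  obtain ⟨t0, ht0⟩ := exists_trace_one ht
  have hE : ∀ s : K, ∃ g : SU K, act g p = p ∧ act g w = w + s • p := by
    intro s
    obtain ⟨g, hg⟩ := exists_eich F.hp F.hwp F.hww s (s * star s * t0) (by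
      simp only [star_mul', star_star]
      linear_combination (s * star s) * ht0)
    exact ⟨g, by rw [hg, eich_p F.hp F.hwp], by rw [hg, eich_w F.hwp F.hww]⟩
  choose E hEp hEw using hE
  have hEp' : ∀ s, act (E s)⁻¹ p = p := by
    intro s
    apply act_inj (E s)
    rw [act_act_inv, hEp]
  have hEw' : ∀ s, act (E s)⁻¹ (w + s • p) = w := by
    intro s
    rw [← hEw, act_inv_act]
  have k1 : ∀ r s g, hf (act (E r * g * (E s)⁻¹) p) p = hf (act g p) p := by
    intro r s g
    rw [act_mul, act_mul, hEp']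
    conv_lhs => rw [← hEp r]
    rw [hf_act]
    conv_lhs => rw [hEp r]
  have k2 : ∀ r s g, act g w = w → act (E r * g * (E s)⁻¹) (w + s • p) = w + r • p := by
    intro r s g hg
    rw [act_mul, act_mul, hEw', hg, hEw]
  rw [← card_product, ← card_product]
  refine card_le_card_of_injOn (fun z => E z.1.1 * z.2 * (E z.1.2)⁻¹) ?_ ?_
  · rintro ⟨⟨r, s⟩, g⟩ hz
    simp only [mem_coe, mem_product, mem_filter, mem_univ, true_and] at hz ⊢
    exact ⟨by rw [k1]; exact hz.2.2, s, hz.1.2, r, hz.1.1, k2 r s g hz.2.1⟩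
  · rintro ⟨⟨r, s⟩, g⟩ hz ⟨⟨r', s'⟩, g'⟩ hz' h
    simp only [mem_coe, mem_product, mem_filter, mem_univ, true_and] at hz hz'
    have h0 : E r * g * (E s)⁻¹ = E r' * g' * (E s')⁻¹ := h
    have h1 := k2 r s g hz.2.1
    have h2 := k2 r' s' g' hz'.2.1
    have h3 := k1 r s g
    rw [← h0] at h2
    have h4 := congrArg (fun y => hf y p) h1
    have h5 := congrArg (fun y => hf y p) h2
    simp only [act_add, act_smul, hf_add_left, hf_smul_left, F.hp, F.hwp, h3] at h4 h5
    have hs : s = s' := by
      apply mul_right_cancel₀ hz.2.2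
      linear_combination h4 - h5
    subst hs
    rw [h1, add_right_inj] at h2
    have hr : r = r' := smul_left_injective K F.p_ne h2
    subst hr
    have hg : g = g' := mul_left_cancel (mul_right_cancel h0)
    rw [hg]

open Classical in
theorem order_lower [Fintype (SU K)] {t : K} (ht : star t ≠ t) {p v w : Fin 3 → K}
    (F : Frame p v w) :
    (Fintype.card K * (fixedSet K).card) * (Fintype.card K * (fixedSet K).card - 1) *
      (Fintype.card K * (fixedSet K).card) ≤ ((fixedSet K).card + 1) * Fintype.card (SU K) := by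
  obtain ⟨t0, ht0⟩ := exists_trace_one ht
  have ha : star t - t ≠ 0 := sub_ne_zero.2 ht
  let c : K × K → K := fun z => z.1 * star z.1 * t0 + (star t - t) * z.2
  let U : Finset (K × K) := univ ×ˢ fixedSet K
  have hU : U.card = Fintype.card K * (fixedSet K).card := by simp [U]
  have hc : ∀ z ∈ U, c z + star (c z) = z.1 * star z.1 := by
    intro z hz
    have h1 := mem_fixedSet.1 (mem_product.1 hz).2
    simp only [c, star_add, star_mul', star_star, star_sub, h1]
    linear_combination (z.1 * star z.1) * ht0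
  have hcinj : ∀ z z' : K × K, z.1 = z'.1 → c z = c z' → z = z' := by
    intro z z' h1 h2
    refine Prod.ext h1 ?_
    simp only [c, h1, add_right_inj] at h2
    exact mul_left_cancel₀ ha h2
  have hE : ∀ u : Fin 3 → K, hf u u = 0 → hf w u = 0 → ∀ z : K × K, ∃ g : SU K,
      z ∈ U → ∀ x, act g x = eich u w z.1 (c z) x := by
    intro u hu hwu z
    by_cases hz : z ∈ U
    · obtain ⟨g, hg⟩ := exists_eich hu hwu F.hww z.1 (c z) (hc z hz)
      exact ⟨g, fun _ => hg⟩
    · exact ⟨1, fun h => absurd h hz⟩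
  choose P hP using hE p F.hp F.hwp
  choose V hV using hE v F.hv F.hwv
  have h00 : ((0 : K), (0 : K)) ∈ U := by simp [U, mem_fixedSet]
  have hPv : ∀ z ∈ U, hf (act (P z) v) v = c z * hf v p * hf p v := by
    intro z hz
    simp [hP z hz, eich, hf_add_left, hf_smul_left, F.hv, F.hwv, hf_swap F.hwv]
  have hc0 : ∀ z ∈ U.erase (0, 0), c z ≠ 0 := by
    intro z hz h
    obtain ⟨h1, h2⟩ := mem_erase.1 hz
    have h3 := hc z h2
    rw [h, star_zero, add_zero] at h3
    have h4 : z.1 = 0 := by
      rcases mul_eq_zero.1 h3.symm with h5 | h5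
      · exact h5
      · exact star_eq_zero.1 h5
    exact h1 (hcinj z (0, 0) h4 (by rw [h]; simp [c]))
  have hval : ∀ z1 ∈ U, ∀ z2, ∀ z3 ∈ U,
      act (V z1 * P z2 * V z3) v = eich v w z1.1 (c z1) (act (P z2) v) := by
    intro z1 h1 z2 z3 h3
    rw [act_mul, act_mul, hV z3 h3, eich_p F.hv F.hwv, hV z1 h1]
  rw [← hU, ← card_erase_of_mem h00, ← card_product, ← card_product, ← card_univ]
  refine card_le_mul_card_image_of_maps_to (f := fun z => V z.1.1 * P z.1.2 * V z.2)
    (fun _ _ => mem_univ _) _ ?_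
  intro g _
  rcases (((U ×ˢ U.erase (0, 0)) ×ˢ U).filter
    fun z => V z.1.1 * P z.1.2 * V z.2 = g).eq_empty_or_nonempty with h | ⟨y, hy⟩
  · simp [h]
  have hcc : ∀ z ∈ ((U ×ˢ U.erase (0, 0)) ×ˢ U).filter
      fun z => V z.1.1 * P z.1.2 * V z.2 = g, hf (act g v) v = c z.1.2 * hf v p * hf p v := by
    intro z hz
    simp only [mem_filter, mem_product] at hz
    rw [← hz.2, hval _ hz.1.1.1 _ _ hz.1.2, hf_eich_p F.hv F.hwv, hPv _ (mem_of_mem_erase hz.1.1.2)]
  have hcc' : ∀ z ∈ ((U ×ˢ U.erase (0, 0)) ×ˢ U).filter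
      fun z => V z.1.1 * P z.1.2 * V z.2 = g, c z.1.2 = c y.1.2 := by
    intro z hz
    have h1 := (hcc z hz).symm.trans (hcc y hy)
    exact mul_right_cancel₀ F.hvp (mul_right_cancel₀ F.hpv h1)
  refine le_trans ?_ (card_norm_le ht (c y.1.2 + star (c y.1.2)))
  refine card_le_card_of_injOn (fun z => z.1.2.1) ?_ ?_
  · intro z hz
    have h1 := hcc' z (mem_coe.1 hz)
    simp only [mem_coe, mem_filter, mem_product] at hz
    simp only [mem_coe, mem_filter, mem_univ, true_and]
    rw [← h1, hc _ (mem_of_mem_erase hz.1.1.2)]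
  · rintro ⟨⟨z1, z2⟩, z3⟩ hz ⟨⟨y1, y2⟩, y3⟩ hz' h
    have h1 := (hcc' _ (mem_coe.1 hz)).trans (hcc' _ (mem_coe.1 hz')).symm
    simp only [mem_coe, mem_filter, mem_product] at hz hz'
    have h2 : z2 = y2 := hcinj _ _ h h1
    subst h2
    have h3 : V z1 * P z2 * V z3 = V y1 * P z2 * V y3 := hz.2.trans hz'.2.symm
    have h4 := hval z1 hz.1.1.1 z2 z3 hz.1.2
    rw [h3, hval y1 hz'.1.1.1 z2 y3 hz'.1.2] at h4
    have h5 : hf (act (P z2) v) v ≠ 0 := by
      rw [hPv _ (mem_of_mem_erase hz.1.1.2)]
      exact mul_ne_zero (mul_ne_zero (hc0 _ hz.1.1.2) F.hvp) F.hpv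
    obtain ⟨h6, h7⟩ := eich_inj F.hwv F.hww F.v_ne h5 h4
    have h8 : y1 = z1 := hcinj _ _ h6 h7
    subst h8
    have h9 : V z3 = V y3 := mul_left_cancel h3
    have h10 := hV z3 hz.1.2 p
    rw [h9, hV y3 hz'.1.2] at h10
    obtain ⟨h11, h12⟩ := eich_inj F.hwv F.hww F.v_ne F.hpv h10
    rw [hcinj _ _ h11 h12]

end Pool.Agent.Lib.MP_65c863_al.H98
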