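import Pool.Agent.Lib.MP_65c863_al.H98Main

/-! Product-free sets in `PSU(3)`: the invariant of an isotropic vector orthogonal to a fixed
vector, the triangle relation, the centre. -/

namespace Pool.Agent.Lib.MP_65c863_al.H98

open Matrix Finset

variable {K : Type} [Field K] [StarRing K]

/-- The determinant of three vectors. -/
def d3 (a b c : Fin 3 → K) : K :=
  a 0 * (b 1 * c 2 - b 2 * c 1) - a 1 * (b 0 * c 2 - b 2 * c 0) + a 2 * (b 0 * c 1 - b 1 * c 0)

theorem d3_act (g : SU K) (a b c : Fin 3 → K) : d3 (act g a) (act g b) (act g c) = d3 a b c := by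
  have h : (g : Matrix (Fin 3) (Fin 3) K).det = 1 := (Matrix.mem_specialUnitaryGroup_iff.1 g.2).2
  rw [det_fin_three] at h
  simp only [d3, act, mulVec, dotProduct, Fin.sum_univ_three]
  linear_combination (a 0 * (b 1 * c 2 - b 2 * c 1) - a 1 * (b 0 * c 2 - b 2 * c 0) +
    a 2 * (b 0 * c 1 - b 1 * c 0)) * h

/-- The form `det (x, u, ·)` is `k` times the form `h (·, u)`. -/
def Nu (x u : Fin 3 → K) (k : K) : Prop := ∀ y, d3 x u y = k * hf y u

theorem Nu.map {x u : Fin 3 → K} {k : K} (h : Nu x u k) (g : SU K) :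
    Nu (act g x) (act g u) k := by
  intro y
  rw [← act_act_inv g y, d3_act, hf_act, h]

theorem Nu.anti {x u u' : Fin 3 → K} {k k' : K} (h : Nu x u k) (h' : Nu x u' k') :
    k * hf u' u = -(k' * hf u u') := by
  rw [← h, ← h']
  simp only [d3]
  ring

theorem Nu.smul {x u : Fin 3 → K} {k : K} (h : Nu x u k) {s t k' : K}
    (hk : s * t * k = k' * star t) : Nu (s • x) (t • u) k' := by
  intro y
  have h1 := h y
  rw [hf_smul_right]
  simp only [d3, Pi.smul_apply, smul_eq_mul] at h1 ⊢
  linear_combination (s * t) * h1 + hf y u * hk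

theorem Nu.shift {x u : Fin 3 → K} {k : K} (h : Nu x u k) : Nu (x + u) u k := by
  intro y
  rw [← h y]
  simp only [d3, Pi.add_apply]
  ring

theorem exists_frame' [Finite K] {t : K} (ht : star t ≠ t) :
    ∃ p v w : Fin 3 → K, Frame p v w ∧ ∃ k, k ≠ 0 ∧ Nu w p k := by
  obtain ⟨p, v, w, F⟩ := exists_frame ht
  have hk : Nu w p (d3 w p v / hf v p) := by
    let c : Fin 3 → K := ![w 1 * p 2 - w 2 * p 1, w 2 * p 0 - w 0 * p 2, w 0 * p 1 - w 1 * p 0]
    have hc : ∀ y, hf y (star c) = d3 w p y := by
      intro y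
      simp [hf, c, d3, dotProduct, Fin.sum_univ_three]
      ring
    have h0 : star c - star (d3 w p v / hf v p) • p = 0 := by
      apply F.span
      · rw [hf_sub_right, hf_smul_right, hc, F.hp]
        simp only [d3]
        ring
      · rw [hf_sub_right, hf_smul_right, hc, star_star, div_mul_cancel₀ _ F.hvp, sub_self]
      · rw [hf_sub_right, hf_smul_right, hc, F.hwp]
        simp only [d3]
        ring
    intro y
    rw [← hc y, sub_eq_zero.1 h0, hf_smul_right, star_star]
  refine ⟨p, v, w, F, _, fun h => ?_, hk⟩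
  rw [h] at hk
  have e0 := hk ![1, 0, 0]
  have e1 := hk ![0, 1, 0]
  have e2 := hk ![0, 0, 1]
  have hw := F.hww
  have hwp := hf_swap F.hwp
  simp [d3] at e0 e1 e2
  simp only [hf, dotProduct, Fin.sum_univ_three, Pi.star_apply] at hw hwp
  apply F.p_ne
  ext i
  fin_cases i
  · show p 0 = 0
    linear_combination (p 0) * hw - (w 0) * hwp + star (w 1) * e2 - star (w 2) * e1
  · show p 1 = 0
    linear_combination (p 1) * hw - (w 1) * hwp - star (w 0) * e2 + star (w 2) * e0
  · show p 2 = 0
    linear_combination (p 2) * hw - (w 2) * hwp + star (w 0) * e1 - star (w 1) * e0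

open Classical in
/-- The direction of an isotropic vector orthogonal to `w`. -/
noncomputable def dir (p v u : Fin 3 → K) : Option K :=
  if hf u v = 0 then none else some (hf u p / hf u v)

theorem Frame.decomp {p v w : Fin 3 → K} (F : Frame p v w) {x : Fin 3 → K} (hx : hf x w = 0) :
    x = (hf x v / hf p v) • p + (hf x p / hf v p) • v := by
  rw [← sub_eq_zero]
  apply F.span
  · apply hf_swap
    rw [hf_sub_left, hf_add_left, hf_smul_left, hf_smul_left, F.hp, div_mul_cancel₀ _ F.hvp]
    ring
  · apply hf_swap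
    rw [hf_sub_left, hf_add_left, hf_smul_left, hf_smul_left, F.hv, div_mul_cancel₀ _ F.hpv]
    ring
  · apply hf_swap
    rw [hf_sub_left, hf_add_left, hf_smul_left, hf_smul_left, hx, hf_swap F.hwp, hf_swap F.hwv]
    ring

theorem dir_eq {p v w : Fin 3 → K} (F : Frame p v w) {u u' : Fin 3 → K} (hu : hf u w = 0)
    (hu' : hf u' w = 0) (huu : hf u u = 0) (huv : hf u v ≠ 0) (h0 : u' ≠ 0) (h : hf u' u = 0) :
    dir p v u' = dir p v u := by
  obtain ⟨s, t, rfl⟩ : ∃ s t : K, u = s • p + t • v := ⟨_, _, F.decomp hu⟩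
  obtain ⟨s', t', rfl⟩ : ∃ s t : K, u' = s • p + t • v := ⟨_, _, F.decomp hu'⟩
  have h1 := F.hpv
  have h2 := F.hvp
  have e1 : ∀ s t : K, hf (s • p + t • v) v = s * hf p v := by
    intro s t
    simp [hf_add_left, hf_smul_left, F.hv]
  have e2 : ∀ s t : K, hf (s • p + t • v) p = t * hf v p := by
    intro s t
    simp [hf_add_left, hf_smul_left, F.hp]
  unfold dir
  rw [e1, e1, e2, e2]
  simp only [hf_add_left, hf_add_right, hf_smul_left, hf_smul_right, F.hp, F.hv, mul_zero,
    add_zero, zero_add] at huu huv h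
  have hs : s ≠ 0 := left_ne_zero_of_mul huv
  have hd : t * s' = t' * s := by
    apply mul_left_cancel₀ (mul_ne_zero (star_ne_zero.2 hs) h2)
    linear_combination s' * huu - s * h
  have hs' : s' ≠ 0 := by
    rintro rfl
    have : t' = 0 := by
      apply mul_right_cancel₀ hs
      linear_combination -hd
    exact h0 (by simp [this])
  rw [if_neg huv, if_neg (mul_ne_zero hs' h1)]
  congr 1
  field_simp
  linear_combination -hd

/-- The scalar attached to a vector. -/
def al (w y : Fin 3 → K) : K := -hf y w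

/-- The isotropic vector attached to a vector. -/
def uo (w y : Fin 3 → K) : Fin 3 → K := star (al w y) • y - w

/-- The admissible images of `w`. -/
def Adm (v w : Fin 3 → K) (k : K) (O O2 : Finset K) (y : Fin 3 → K) : Prop :=
  al w y * star (al w y) = 1 ∧ hf (uo w y) v ≠ 0 ∧
    ∃ i ∈ O, Nu w (uo w y) (k * i) ∧ al w y ^ 3 * i ^ 2 ∉ O2

theorem uo_spec {w y : Fin 3 → K} (hww : hf w w = -1) (hy : hf y y = -1)
    (h : al w y * star (al w y) = 1) :
    hf (uo w y) w = 0 ∧ hf (uo w y) (uo w y) = 0 ∧ y = al w y • (w + uo w y) := by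
  have e1 : hf y w = -al w y := by simp [al]
  have e2 : hf w y = -star (al w y) := by rw [← hf_star, e1, star_neg]
  refine ⟨?_, ?_, ?_⟩
  · rw [uo, hf_sub_left, hf_smul_left, e1, hww]
    linear_combination -h
  · simp only [uo, hf_sub_left, hf_sub_right, hf_smul_left, hf_smul_right, e1, e2, hww, hy,
      star_star]
    linear_combination h
  · rw [uo, add_sub_cancel, smul_smul, h, one_smul]

theorem triangle {p v w : Fin 3 → K} (F : Frame p v w) {k : K} (hk : k ≠ 0) {O O2 : Finset K}
    (hO : ∀ x ∈ O, ∀ y ∈ O, x * y ∈ O2) {a b c : SU K} {z : K} (hz : z * star z = 1)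
    (habc : act (a * b) w = z • act c w) (ha : Adm v w k O O2 (act a w))
    (hb : Adm v w k O O2 (act b w)) (hc : Adm v w k O O2 (act c w)) :
    dir p v (act a⁻¹ (uo w (act a w))) = dir p v (uo w (act b w)) := by
  obtain ⟨ha1, ha2, i1, -, ha3, ha4⟩ := ha
  obtain ⟨hb1, hb2, i2, hi2, hb3, -⟩ := hb
  obtain ⟨hc1, -, i3, hi3, hc3, -⟩ := hc
  obtain ⟨a1, a2, a3⟩ := uo_spec F.hww (by rw [hf_act, F.hww]) ha1
  obtain ⟨b1, b2, b3⟩ := uo_spec F.hww (by rw [hf_act, F.hww]) hb1
  obtain ⟨c1, c2, c3⟩ := uo_spec F.hww (by rw [hf_act, F.hww]) hc1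
  generalize uo w (act a w) = u1 at *
  generalize uo w (act b w) = u2 at *
  generalize uo w (act c w) = u3 at *
  generalize al w (act a w) = x1 at *
  generalize al w (act b w) = x2 at *
  generalize al w (act c w) = x3 at *
  have hu1 : u1 ≠ 0 := by
    rintro rfl
    exact ha2 (by simp [hf])
  have hin : hf (act a⁻¹ u1) w = 0 := by
    rw [← hf_act a, act_act_inv, a3, hf_smul_right, hf_add_right, a1, a2]
    ring
  by_contra hne
  have hη : hf u1 (act a u2) ≠ 0 := by
    intro h
    refine hne (dir_eq F b1 hin b2 hb2 (fun h0 => hu1 ?_) ?_)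
    · rw [← act_act_inv a u1, h0]
      simp [act]
    · rw [← hf_act a, act_act_inv, h]
  obtain ⟨e, he⟩ : ∃ e, e = star x1 • act a u2 := ⟨_, rfl⟩
  obtain ⟨r, hr⟩ : ∃ r, r = star x1 * star x2 * z * x3 := ⟨_, rfl⟩
  have hrr : r * star r = 1 := by
    simp only [hr, star_mul', star_star]
    linear_combination (x2 * star x2 * (z * star z) * (x3 * star x3)) * ha1 +
      ((z * star z) * (x3 * star x3)) * hb1 + (x3 * star x3) * hz + hc1
  have hy : star x1 • act a w = w + u1 := by rw [a3, smul_smul, mul_comm, ha1, one_smul]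
  have key : w + u1 + e = r • (w + u3) := by
    have h1 : act a (w + u2) = star x2 • act (a * b) w := by
      rw [act_mul, b3, act_smul, smul_smul, mul_comm, hb1, one_smul]
    rw [← hy, he, ← smul_add, ← act_add, h1, habc, c3, smul_smul, smul_smul, smul_smul, hr]
  have hey : hf e (w + u1) = 0 := by
    rw [← hy, he, hf_smul_left, hf_smul_right, hf_act, b1]
    ring
  have k1 := congrArg (fun y => hf y w) key
  have k2 := congrArg (fun y => hf y u1) key
  simp only [hf_add_left, hf_add_right, hf_smul_left, F.hww, a1, a2, c1, hf_swap a1] at k1 k2 hey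
  have f1 : hf e u1 = r - 1 := by linear_combination hey - k1
  have f1' : hf u1 e = star r - 1 := by rw [← hf_star, f1, star_sub, star_one]
  have f2 : hf u3 u1 = 1 - star r := by
    linear_combination (star r) * f1 - (star r) * k2 - (hf u3 u1 - 1) * hrr
  have f2' : hf u1 u3 = 1 - r := by rw [← hf_star, f2, star_sub, star_star, star_one]
  have hr1 : star r - 1 ≠ 0 := by
    rw [← f1', he, hf_smul_right, star_star]
    exact mul_ne_zero (left_ne_zero_of_mul_eq_one ha1) hη
  have n1 := ha3.anti hc3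
  have hNe : Nu (w + u1) e (star x1 ^ 3 * (k * i2)) := by
    rw [← hy, he]
    refine (hb3.map a).smul ?_
    rw [star_star]
    linear_combination (-(star x1 ^ 2 * (k * i2))) * ha1
  have n2 := ha3.shift.anti hNe
  rw [f2, f2'] at n1
  rw [f1, f1'] at n2
  have m1 : i1 = i3 * r := by
    apply mul_left_cancel₀ (mul_ne_zero hk hr1)
    linear_combination -n1 - (k * i3) * hrr
  have m2 : star x1 ^ 3 * i2 = i1 * r := by
    apply mul_left_cancel₀ (mul_ne_zero hk hr1)
    linear_combination n2 - (k * i1) * hrr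
  apply ha4
  have m3 : x1 ^ 3 * i1 ^ 2 = i2 * i3 := by
    linear_combination (x1 ^ 3 * i1) * m1 - (x1 ^ 3 * i3) * m2 +
      (i2 * i3 * ((x1 * star x1) ^ 2 + x1 * star x1 + 1)) * ha1
  rw [m3]
  exact hO _ hi2 _ hi3

theorem central_w {t : K} (ht : star t ≠ t) {p v w : Fin 3 → K} (F : Frame p v w) {z : SU K}
    (hz : z ∈ Subgroup.center (SU K)) :
    ∃ s : K, s * star s = 1 ∧ s ^ 3 = 1 ∧ ∀ x, act z x = s • x := by
  have ha : star t - t ≠ 0 := sub_ne_zero.2 ht
  have hcomm : ∀ g x, act z (act g x) = act g (act z x) := by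
    intro g x
    rw [← act_mul, ← act_mul, Subgroup.mem_center_iff.1 hz g]
  have h1 : ∀ u, hf u u = 0 → hf w u = 0 → u ≠ 0 → hf (act z w) u = 0 := by
    intro u hu hwu h0
    obtain ⟨T, hT⟩ := exists_eich hu hwu F.hww 0 (star t - t) (by simp)
    have h2 := hcomm T w
    rw [hT, hT, eich_w hwu F.hww, zero_smul, add_zero] at h2
    simp only [eich, zero_mul, zero_smul, sub_zero, star_zero, add_zero, left_eq_add,
      smul_eq_zero, mul_eq_zero] at h2
    rcases h2 with (h | h) | h
    · exact absurd h ha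
    · exact h
    · exact absurd h h0
  obtain ⟨s, hs⟩ : ∃ s, s = -hf (act z w) w := ⟨_, rfl⟩
  have hw : act z w = s • w := by
    rw [← sub_eq_zero]
    apply F.span
    · apply hf_swap
      rw [hf_sub_left, hf_smul_left, h1 p F.hp F.hwp F.p_ne, F.hwp]
      ring
    · apply hf_swap
      rw [hf_sub_left, hf_smul_left, h1 v F.hv F.hwv F.v_ne, F.hwv]
      ring
    · apply hf_swap
      rw [hf_sub_left, hf_smul_left, F.hww, hs]
      ring
  have hss : s * star s = 1 := by
    have h2 := hf_act z w w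
    rw [hw, hf_smul_left, hf_smul_right, F.hww] at h2
    linear_combination -h2
  obtain ⟨t0, ht0⟩ := exists_trace_one ht
  have h3 : ∀ u, hf u u = 0 → hf w u = 0 → act z u = s • u := by
    intro u hu hwu
    obtain ⟨E, hE⟩ := exists_eich hu hwu F.hww 1 t0 (by simpa using ht0)
    have h2 := hcomm E w
    rw [hw, act_smul, hE, eich_w hwu F.hww, one_smul, act_add, hw, smul_add, add_right_inj] at h2
    exact h2
  have h4 : ∀ y x, act z y = s • y → hf y (act z x - s • x) = 0 := by
    intro y x hy
    have h5 := hf_act z y x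
    rw [hy, hf_smul_left] at h5
    rw [hf_sub_right, hf_smul_right]
    linear_combination (star s) * h5 - hf y (act z x) * hss
  have h5 : ∀ x, act z x = s • x := by
    intro x
    rw [← sub_eq_zero]
    exact F.span _ (h4 p x (h3 p F.hp F.hwp)) (h4 v x (h3 v F.hv F.hwv)) (h4 w x hw)
  refine ⟨s, hss, ?_, h5⟩
  have h6 := d3_act z ![1, 0, 0] ![0, 1, 0] ![0, 0, 1]
  simp [h5, d3] at h6
  linear_combination h6

theorem ext_act {g h : SU K} (H : ∀ x, act g x = act h x) : g = h := by
  apply Subtype.ext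
  ext i j
  have := congrFun (H (Pi.single j 1)) i
  simpa [act] using this

omit [StarRing K] in
theorem card_cube_le [Fintype K] [DecidableEq K] (c : K) :
    (univ.filter fun x : K => x ^ 3 = c).card ≤ 3 := by
  refine le_trans (card_le_card (t := (Polynomial.nthRoots 3 c).toFinset) ?_)
    ((Multiset.toFinset_card_le _).trans (Polynomial.card_nthRoots 3 c))
  intro x hx
  rw [Multiset.mem_toFinset, Polynomial.mem_nthRoots (by norm_num)]
  exact (mem_filter.1 hx).2

theorem card_center_le [Finite K] {t : K} (ht : star t ≠ t) {p v w : Fin 3 → K} (F : Frame p v w) :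
    Nat.card (Subgroup.center (SU K)) ≤ 3 := by
  classical
  have := Fintype.ofFinite K
  choose s _ hs3 hs using fun z : Subgroup.center (SU K) => central_w ht F z.2
  refine le_trans ?_ (card_cube_le (1 : K))
  rw [← Fintype.card_coe, ← Nat.card_eq_fintype_card]
  refine Nat.card_le_card_of_injective (fun z => ⟨s z, by simp [hs3]⟩) ?_
  intro z z' h
  have h1 : s z = s z' := congrArg Subtype.val h
  exact Subtype.ext (ext_act fun x => by rw [hs, hs, h1])

theorem exists_scale {t : K} (ht : star t ≠ t) {p v w : Fin 3 → K} (F : Frame p v w) {x : K}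
    (hx : x * star x = 1) : ∃ g : SU K, act g w = x • w := by
  obtain ⟨t0, ht0⟩ := exists_trace_one ht
  obtain ⟨e, hee, hwe⟩ : ∃ e, hf e e = 1 ∧ hf w e = 0 := by
    refine ⟨p + (t0 / hf v p) • v, ?_, ?_⟩
    · have h1 : star (t0 / hf v p) * hf p v = star t0 := by
        rw [star_div₀, hf_star, div_mul_cancel₀ _ F.hpv]
      simp only [hf_add_left, hf_add_right, hf_smul_left, hf_smul_right, F.hp, F.hv,
        div_mul_cancel₀ _ F.hvp]
      linear_combination ht0 + h1
    · simp [hf_add_right, hf_smul_right, F.hwp, F.hwv]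
  have hew : hf e w = 0 := hf_swap hwe
  let M : Matrix (Fin 3) (Fin 3) K :=
    (1 + vecMulVec w (star ((1 - star x) • w))) * (1 + vecMulVec e (star ((x - 1) • e)))
  have e1 : ∀ y z : Fin 3 → K, y ⬝ᵥ star z = hf y z := fun _ _ => rfl
  have hM : ∀ y, M *ᵥ y = y + ((star x - 1) * hf y e) • e + ((1 - x) * hf y w) • w := by
    intro y
    simp only [M, ← mulVec_mulVec, rank_one_mulVec, e1, hf_add_left, hf_smul_left,
      hf_smul_right, hew, star_sub, star_star, star_one, mul_zero, add_zero]
  refine ⟨⟨M, Matrix.mem_specialUnitaryGroup_iff.2 ⟨mem_unitary_of_hf M ?_, ?_⟩⟩, ?_⟩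
  · intro y z
    simp only [hM, hf_add_left, hf_add_right, hf_smul_left, hf_smul_right, hee, hwe, hew, F.hww,
      star_mul', star_star, hf_star, star_sub, star_one]
    linear_combination (hf y e * hf e z - hf y w * hf w z) * hx
  · have e2 : ∀ y z : Fin 3 → K, star z ⬝ᵥ y = hf y z := fun y z => dotProduct_comm _ _
    simp only [M]
    rw [det_mul, vecMulVec_eq Unit, det_one_add_replicateCol_mul_replicateRow, vecMulVec_eq Unit,
      det_one_add_replicateCol_mul_replicateRow, e2, e2, hf_smul_right, hf_smul_right, hee, F.hww]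
    simp only [star_sub, star_star, star_one]
    linear_combination hx
  · show M *ᵥ w = x • w
    rw [hM, hwe, F.hww]
    ext i
    simp only [Pi.add_apply, Pi.smul_apply, smul_eq_mul]
    ring

end Pool.Agent.Lib.MP_65c863_al.H98
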