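import Pool.Agent.Lib.MP_65c863_al.H98Main

/-! The special unitary group `SU(3)` over a finite field with a nontrivial involution, of order
`n`, has a product-free subset with at least `n ^ (7 / 8) / 20` elements. -/

namespace Pool.Agent.Lib.MP_65c863_al.H98SU3Variant

open Pool.Agent.Lib.MP_65c863_al.H98 Finset

theorem arith {n m k s h h0 i o : ℕ} (hm : 2 ≤ m) (hk : m ^ 2 ≤ k) (hio : i + o = k)
    (hi : i = k / 2) (h1 : n ≤ h * ((m + 1) * k ^ 2)) (h2 : h ≤ 2 * h0) (h3 : o * i * h0 ≤ s)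
    (h4 : k * m * (k * m - 1) * (k * m) ≤ (m + 1) * n) : n ^ 7 ≤ (20 * s) ^ 8 := by
  have hk4 : 4 ≤ k := by nlinarith
  have hm3 : 2 * (m + 1) ≤ 3 * m := by omega
  have e1 : k ^ 2 ≤ 5 * (o * i) := by
    have : o = i ∨ o = i + 1 := by omega
    have hi2 : 2 ≤ i := by omega
    rcases this with rfl | rfl <;> subst hio <;> nlinarith
  have e2 : n ≤ 15 * m * s := by
    calc n ≤ h * ((m + 1) * k ^ 2) := h1
      _ ≤ (2 * h0) * ((m + 1) * (5 * (o * i))) := by gcongr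
      _ = 5 * (2 * (m + 1)) * (o * i * h0) := by ring
      _ ≤ 5 * (3 * m) * s := Nat.mul_le_mul (Nat.mul_le_mul_left _ hm3) h3
      _ = 15 * m * s := by ring
  have e3 : m ^ 3 ≤ k * m := by
    calc m ^ 3 = m ^ 2 * m := by ring
      _ ≤ k * m := by gcongr
  have e4 : 8 ≤ m ^ 3 := by
    calc 8 = 2 ^ 3 := by norm_num
      _ ≤ m ^ 3 := by gcongr
  have e5 : 7 * m ^ 3 ≤ 8 * (k * m - 1) := by omega
  have e6 : m * (7 * m ^ 8) ≤ m * (12 * n) := by
    calc m * (7 * m ^ 8) = m ^ 3 * (7 * m ^ 3) * m ^ 3 := by ring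
      _ ≤ (k * m) * (8 * (k * m - 1)) * (k * m) := by gcongr
      _ = 8 * (k * m * (k * m - 1) * (k * m)) := by ring
      _ ≤ 8 * ((m + 1) * n) := by gcongr
      _ = 4 * (2 * (m + 1)) * n := by ring
      _ ≤ 4 * (3 * m) * n := Nat.mul_le_mul_right _ (Nat.mul_le_mul_left _ hm3)
      _ = m * (12 * n) := by ring
  have e7 : 7 * m ^ 8 ≤ 12 * n := Nat.le_of_mul_le_mul_left e6 (by omega)
  have e8 : m ^ 8 ≤ 2 * n := by omega
  rcases Nat.eq_zero_or_pos n with rfl | hn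
  · simp
  refine Nat.le_of_mul_le_mul_left ?_ hn
  calc n * n ^ 7 = n ^ 8 := by ring
    _ ≤ (15 * m * s) ^ 8 := by gcongr
    _ = 15 ^ 8 * m ^ 8 * s ^ 8 := by ring
    _ ≤ 15 ^ 8 * (2 * n) * s ^ 8 := by gcongr
    _ = (15 ^ 8 * 2) * (n * s ^ 8) := by ring
    _ ≤ 20 ^ 8 * (n * s ^ 8) := by gcongr; norm_num
    _ = n * (20 * s) ^ 8 := by ring

theorem result (K : Type) [Field K] [Finite K] [StarRing K] (hK : ∃ t : K, star t ≠ t) :
    ∃ S : Set (Matrix.specialUnitaryGroup (Fin 3) K),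
      (∀ a ∈ S, ∀ b ∈ S, ∀ c ∈ S, a * b ≠ c) ∧
      (Nat.card (Matrix.specialUnitaryGroup (Fin 3) K) : ℝ) ^ ((7 : ℝ) / 8) / 20 ≤ S.ncard := by
  classical
  obtain ⟨t, ht⟩ := hK
  have := Fintype.ofFinite K
  have := Fintype.ofFinite (SU K)
  obtain ⟨p, v, w, F⟩ := exists_frame ht
  obtain ⟨I, -, hI⟩ := exists_subset_card_eq (s := (univ : Finset K)) (n := Fintype.card K / 2)
    (by rw [card_univ]; omega)
  refine ⟨↑(univ.filter (good p w I Iᶜ)), ?_, ?_⟩
  · intro a ha b hb c hc h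
    simp only [coe_filter, mem_univ, true_and, Set.mem_ofPred_eq] at ha hb hc
    exact good_free F disjoint_compl_right ha hb (h ▸ hc)
  · have key := arith (two_le_fixed (K := K)) (sq_fixed_le ht) (card_add_card_compl I) hI
      (card_le_stab ht F.hww) (stab_half ht F) (card_good ht F I Iᶜ) (order_lower ht F)
    rw [Set.ncard_coe_finset, Nat.card_eq_fintype_card, div_le_iff₀ (by norm_num)]
    have key' : ((Fintype.card (SU K) : ℝ)) ^ 7 ≤
        (((univ.filter (good p w I Iᶜ)).card : ℝ) * 20) ^ 8 := by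
      rw [mul_comm]
      exact_mod_cast key
    refine le_of_pow_le_pow_left₀ (n := 8) (by norm_num) (by positivity) ?_
    rw [← Real.rpow_natCast, ← Real.rpow_mul (by positivity)]
    norm_num
    exact_mod_cast key'

end Pool.Agent.Lib.MP_65c863_al.H98SU3Variant
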