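import Mathlib

/-! Product-free sets in `SU(3)` over a finite field: the hermitian form, Eichler elements and the
counting lemmas. -/

namespace Pool.Agent.Lib.MP_65c863_al.H98

open Matrix

variable {K : Type} [Field K] [StarRing K]

/-- The special unitary group in dimension three. -/
abbrev SU (K : Type) [Field K] [StarRing K] := Matrix.specialUnitaryGroup (Fin 3) K

/-- The standard hermitian form. -/
def hf (x y : Fin 3 → K) : K := x ⬝ᵥ star y

/-- The action on column vectors. -/
def act (g : SU K) (x : Fin 3 → K) : Fin 3 → K := (g : Matrix (Fin 3) (Fin 3) K) *ᵥ x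

theorem hf_add_left (x y z : Fin 3 → K) : hf (x + y) z = hf x z + hf y z := by
  simp [hf]

theorem hf_sub_left (x y z : Fin 3 → K) : hf (x - y) z = hf x z - hf y z := by
  simp [hf]

theorem hf_smul_left (c : K) (x z : Fin 3 → K) : hf (c • x) z = c * hf x z := by
  simp [hf]

theorem hf_add_right (x y z : Fin 3 → K) : hf z (x + y) = hf z x + hf z y := by
  simp [hf]

theorem hf_sub_right (x y z : Fin 3 → K) : hf z (x - y) = hf z x - hf z y := by
  simp [hf]

theorem hf_smul_right (c : K) (x z : Fin 3 → K) : hf z (c • x) = star c * hf z x := by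
  simp [hf]

theorem hf_star (x y : Fin 3 → K) : star (hf x y) = hf y x := by
  simp [hf, dotProduct, mul_comm]

theorem hf_swap {x y : Fin 3 → K} (h : hf x y = 0) : hf y x = 0 := by
  rw [← hf_star, h, star_zero]

theorem act_mul (g h : SU K) (x : Fin 3 → K) : act (g * h) x = act g (act h x) := by
  simp [act]

theorem act_one (x : Fin 3 → K) : act (1 : SU K) x = x := by
  simp [act]

theorem act_add (g : SU K) (x y : Fin 3 → K) : act g (x + y) = act g x + act g y := by
  simp [act, mulVec_add]

theorem act_sub (g : SU K) (x y : Fin 3 → K) : act g (x - y) = act g x - act g y := by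
  simp [act, mulVec_sub]

theorem act_smul (g : SU K) (c : K) (x : Fin 3 → K) : act g (c • x) = c • act g x := by
  simp [act, mulVec_smul]

theorem act_inv_act (g : SU K) (x : Fin 3 → K) : act g⁻¹ (act g x) = x := by
  rw [← act_mul, inv_mul_cancel, act_one]

theorem act_act_inv (g : SU K) (x : Fin 3 → K) : act g (act g⁻¹ x) = x := by
  rw [← act_mul, mul_inv_cancel, act_one]

theorem act_inj (g : SU K) {x y : Fin 3 → K} (h : act g x = act g y) : x = y := by
  rw [← act_inv_act g x, h, act_inv_act]

theorem hf_mulVec (M : Matrix (Fin 3) (Fin 3) K) (x y : Fin 3 → K) :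
    hf (M *ᵥ x) (M *ᵥ y) = star y ⬝ᵥ ((star M * M) *ᵥ x) := by
  rw [hf, star_mulVec, dotProduct_comm, ← dotProduct_mulVec, mulVec_mulVec]
  rfl

theorem hf_act (g : SU K) (x y : Fin 3 → K) : hf (act g x) (act g y) = hf x y := by
  have h : star (g : Matrix (Fin 3) (Fin 3) K) * g = 1 :=
    (Matrix.mem_unitaryGroup_iff').1 (Matrix.mem_specialUnitaryGroup_iff.1 g.2).1
  rw [act, act, hf_mulVec, h, one_mulVec, hf, dotProduct_comm]

theorem mem_unitary_of_hf (M : Matrix (Fin 3) (Fin 3) K)
    (h : ∀ x y, hf (M *ᵥ x) (M *ᵥ y) = hf x y) : M ∈ Matrix.unitaryGroup (Fin 3) K := by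
  rw [Matrix.mem_unitaryGroup_iff']
  ext i j
  have h1 := h (Pi.single j 1) (Pi.single i 1)
  rw [hf_mulVec, hf] at h1
  simpa [Matrix.one_apply, Pi.single_apply, eq_comm] using h1

omit [StarRing K] in
theorem det_rank_one (u v : Fin 3 → K) (h : v ⬝ᵥ u = 0) : det (1 + vecMulVec u v) = 1 := by
  rw [vecMulVec_eq Unit, det_one_add_replicateCol_mul_replicateRow, h, add_zero]

omit [StarRing K] in
theorem rank_one_mulVec (u v x : Fin 3 → K) :
    (1 + vecMulVec u v) *ᵥ x = x + (x ⬝ᵥ v) • u := by
  rw [add_mulVec, one_mulVec, vecMulVec_mulVec, dotProduct_comm]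
  simp

/-- The formula of an Eichler element. -/
def eich (p w : Fin 3 → K) (s c : K) (x : Fin 3 → K) : Fin 3 → K :=
  x - (s * hf x w) • p + (star s * hf x p) • w + (c * hf x p) • p

theorem exists_eich {p w : Fin 3 → K} (hp : hf p p = 0) (hw : hf w p = 0) (hww : hf w w = -1)
    (s c : K) (hc : c + star c = s * star s) : ∃ g : SU K, ∀ x, act g x = eich p w s c x := by
  have hpw : hf p w = 0 := hf_swap hw
  let M : Matrix (Fin 3) (Fin 3) K :=
    (1 + vecMulVec p (star ((-star s) • w + star (c - s * star s) • p))) *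
      (1 + vecMulVec w (star (s • p)))
  have hM : ∀ x, M *ᵥ x = eich p w s c x := by
    intro x
    have e1 : ∀ y z : Fin 3 → K, y ⬝ᵥ star z = hf y z := fun _ _ => rfl
    simp only [M, ← mulVec_mulVec, rank_one_mulVec, e1, hf_add_left, hf_add_right, hf_smul_left,
      hf_smul_right, hw, hww, star_neg, star_star, eich]
    ext i
    simp only [Pi.add_apply, Pi.sub_apply, Pi.smul_apply, smul_eq_mul]
    ring
  refine ⟨⟨M, Matrix.mem_specialUnitaryGroup_iff.2 ⟨mem_unitary_of_hf M ?_, ?_⟩⟩, hM⟩
  · intro x y
    simp only [hM, eich, hf_add_left, hf_add_right, hf_sub_left, hf_sub_right, hf_smul_left,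
      hf_smul_right, hw, hww, hp, hpw, star_mul', star_star, hf_star]
    linear_combination (hf x p * hf p y) * hc
  · have e1 : ∀ y z : Fin 3 → K, star z ⬝ᵥ y = hf y z := fun y z => dotProduct_comm _ _
    simp only [M]
    rw [det_mul, det_rank_one, det_rank_one, one_mul]
    · rw [e1, hf_smul_right, hw, mul_zero]
    · rw [e1, hf_add_right, hf_smul_right, hf_smul_right, hp, hpw]
      ring

theorem eich_p {p w : Fin 3 → K} (hp : hf p p = 0) (hw : hf w p = 0) (s c : K) :
    eich p w s c p = p := by
  simp [eich, hp, hf_swap hw]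

theorem eich_w {p w : Fin 3 → K} (hw : hf w p = 0) (hww : hf w w = -1) (s c : K) :
    eich p w s c w = w + s • p := by
  simp [eich, hw, hww]

theorem hf_eich_p {p w : Fin 3 → K} (hp : hf p p = 0) (hw : hf w p = 0) (s c : K)
    (x : Fin 3 → K) : hf (eich p w s c x) p = hf x p := by
  simp [eich, hf_add_left, hf_sub_left, hf_smul_left, hp, hw]

theorem eich_inj {p w x : Fin 3 → K} (hw : hf w p = 0) (hww : hf w w = -1) (hp0 : p ≠ 0)
    (hx : hf x p ≠ 0) {s c s' c' : K} (h : eich p w s c x = eich p w s' c' x) :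
    s = s' ∧ c = c' := by
  have hpw : hf p w = 0 := hf_swap hw
  have h1 := congrArg (fun y => hf y w) h
  simp only [eich, hf_add_left, hf_sub_left, hf_smul_left, hpw, hww] at h1
  have h2 : star s = star s' := by
    apply mul_right_cancel₀ hx
    linear_combination -h1
  have hs : s = s' := star_injective h2
  subst hs
  refine ⟨rfl, ?_⟩
  simp only [eich, add_right_inj] at h
  exact mul_right_cancel₀ hx (smul_left_injective K hp0 h)

section count

open Finset

variable [Fintype K] [DecidableEq K]

/-- The elements fixed by the involution. -/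
def fixedSet (K : Type) [Field K] [StarRing K] [Fintype K] [DecidableEq K] : Finset K :=
  univ.filter fun x => star x = x

theorem mem_fixedSet {x : K} : x ∈ fixedSet K ↔ star x = x := by
  simp [fixedSet]

theorem two_le_fixed : 2 ≤ (fixedSet K).card := by
  have h : ({0, 1} : Finset K) ⊆ fixedSet K := by
    intro x hx
    rcases mem_insert.1 hx with rfl | hx
    · simp [mem_fixedSet]
    · rw [mem_singleton.1 hx]
      simp [mem_fixedSet]
  have := card_le_card h
  rwa [card_pair zero_ne_one] at this

theorem sq_fixed_le {t : K} (ht : star t ≠ t) : (fixedSet K).card ^ 2 ≤ Fintype.card K := by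
  rw [sq, ← card_product, ← card_univ]
  refine card_le_card_of_injOn (fun z => z.1 + t * z.2) (fun _ _ => mem_univ _) ?_
  rintro ⟨x, y⟩ hxy ⟨x', y'⟩ hxy' h
  simp only [coe_product, Set.mem_prod, mem_coe, mem_fixedSet] at hxy hxy'
  have h1 : x + t * y = x' + t * y' := h
  have h2 := congrArg star h1
  simp only [star_add, star_mul', hxy.1, hxy.2, hxy'.1, hxy'.2] at h2
  have h3 : y = y' := by
    apply mul_left_cancel₀ (sub_ne_zero.2 ht)
    linear_combination h2 - h1
  subst h3
  simpa using h1

theorem card_trace_le {t : K} (ht : star t ≠ t) (d : K) :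
    (univ.filter fun z : K => z + star z = d).card ≤ (fixedSet K).card := by
  rcases (univ.filter fun z : K => z + star z = d).eq_empty_or_nonempty with h | ⟨z0, h0⟩
  · simp [h]
  have ha : star t - t ≠ 0 := sub_ne_zero.2 ht
  have ha' : t - star t ≠ 0 := sub_ne_zero.2 ht.symm
  have h0' := (mem_filter.1 h0).2
  refine card_le_card_of_injOn (fun z => (z - z0) / (star t - t)) ?_ ?_
  · intro z hz
    have hz' := (mem_filter.1 (mem_coe.1 hz)).2
    simp only [mem_coe, mem_fixedSet, star_div₀, star_sub, star_star]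
    field_simp
    linear_combination (star t - t) * (hz' - h0')
  · intro z _ z' _ h
    have h1 : (z - z0) / (star t - t) = (z' - z0) / (star t - t) := h
    rw [div_left_inj' ha] at h1
    simpa using h1

theorem card_norm_le {t : K} (ht : star t ≠ t) (d : K) :
    (univ.filter fun z : K => z * star z = d).card ≤ (fixedSet K).card + 1 := by
  rcases (univ.filter fun z : K => z * star z = d).eq_empty_or_nonempty with h | ⟨z0, h0⟩
  · simp [h]
  have h0' := (mem_filter.1 h0).2
  rw [← card_erase_add_one h0, Nat.add_le_add_iff_right]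
  refine le_trans ?_ (card_trace_le ht 1)
  by_cases hz0 : z0 = 0
  · have : (univ.filter fun z : K => z * star z = d).erase z0 = ∅ := by
      rw [eq_empty_iff_forall_notMem]
      intro z hz
      obtain ⟨h1, h2⟩ := mem_erase.1 hz
      have h3 := (mem_filter.1 h2).2
      rw [← h0', hz0, zero_mul] at h3
      rcases mul_eq_zero.1 h3 with h4 | h4
      · exact h1 (h4.trans hz0.symm)
      · exact h1 ((star_eq_zero.1 h4).trans hz0.symm)
    simp [this]
  refine card_le_card_of_injOn (fun z => z0 / (z0 - z)) ?_ ?_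
  · intro z hz
    obtain ⟨h1, h2⟩ := mem_erase.1 (mem_coe.1 hz)
    have h3 := (mem_filter.1 h2).2
    have h4 : z0 - z ≠ 0 := sub_ne_zero.2 (Ne.symm h1)
    have h5 : star z0 - star z ≠ 0 := by
      rw [← star_sub]
      exact star_ne_zero.2 h4
    simp only [mem_coe, mem_filter, mem_univ, true_and, star_div₀, star_sub]
    field_simp
    linear_combination h0' - h3
  · intro z hz z' hz' h
    have h1 : z0 / (z0 - z) = z0 / (z0 - z') := h
    have h4 : z0 - z ≠ 0 := sub_ne_zero.2 (Ne.symm (mem_erase.1 (mem_coe.1 hz)).1)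
    have h5 : z0 - z' ≠ 0 := sub_ne_zero.2 (Ne.symm (mem_erase.1 (mem_coe.1 hz')).1)
    rw [div_eq_div_iff h4 h5] at h1
    have h6 := mul_left_cancel₀ hz0 h1
    linear_combination h6

theorem card_sphere_le {t : K} (ht : star t ≠ t) (d : K) :
    (univ.filter fun x : Fin 3 → K => hf x x = d).card ≤
      ((fixedSet K).card + 1) * Fintype.card K ^ 2 := by
  have h : Fintype.card K ^ 2 = (univ : Finset (K × K)).card := by simp [sq]
  rw [h]
  refine card_le_mul_card_image_of_maps_to (f := fun x => (x 0, x 1))
    (fun _ _ => mem_univ _) _ ?_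
  rintro ⟨a, b⟩ -
  refine le_trans ?_ (card_norm_le ht (d - a * star a - b * star b))
  refine card_le_card_of_injOn (fun x => x 2) ?_ ?_
  · intro x hx
    simp only [mem_coe, mem_filter, mem_univ, true_and, Prod.mk.injEq] at hx ⊢
    obtain ⟨h1, rfl, rfl⟩ := hx
    simp only [hf, dotProduct, Fin.sum_univ_three, Pi.star_apply] at h1
    linear_combination h1
  · intro x hx y hy hxy
    simp only [mem_coe, mem_filter, mem_univ, true_and, Prod.mk.injEq] at hx hy
    ext i
    fin_cases i
    · exact hx.2.1.trans hy.2.1.symm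
    · exact hx.2.2.trans hy.2.2.symm
    · exact hxy

end count

end Pool.Agent.Lib.MP_65c863_al.H98
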