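import Pool.Agent.Lib.MP_65c863_al.Alg

/-! The product-free set in `SL(2, K)` for a cubic extension `K / k` of finite fields. -/

namespace Pool.Agent.Lib.MP_65c863_al

section mat
variable {K : Type*} [Field K]

open Classical in
/-- The matrix `n(v) * l(J, c) * n(-u)`. -/
noncomputable def gm (u v J c : K) : Matrix.SpecialLinearGroup (Fin 2) K :=
  if h : J = 0 then 1 else
    ⟨!![J⁻¹ + v * c, J * v - (J⁻¹ + v * c) * u; c, J - c * u], by
      rw [Matrix.det_fin_two_of]; field_simp; ring⟩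

theorem gm_val {u v J c : K} (h : J ≠ 0) :
    (gm u v J c : Matrix (Fin 2) (Fin 2) K)
      = !![J⁻¹ + v * c, J * v - (J⁻¹ + v * c) * u; c, J - c * u] := by
  unfold gm; rw [dif_neg h]

theorem gm_mul {u1 v1 J1 c1 u2 v2 J2 c2 u3 v3 J3 c3 : K} (h1 : J1 ≠ 0) (h2 : J2 ≠ 0)
    (h3 : J3 ≠ 0) (h : gm u1 v1 J1 c1 * gm u2 v2 J2 c2 = gm u3 v3 J3 c3) :
    c3 * (u3 - u2) = -J2 * (c1 * (v2 - u1)) + (J3 - J1 * J2) ∧
    c2 * (v2 - u1) = J1 * (c3 * (v3 - v1)) + (J1 * J3⁻¹ - J2⁻¹) ∧
    c2 * (u3 - u2) = -J3 * (c1 * (v3 - v1)) + (J1⁻¹ * J3 - J2) ∧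
    c3 * (v3 - v1) * (u3 - u2)
      = J3 * (v3 - v1) - J3⁻¹ * (u3 - u2) - J2 * J1⁻¹ * (v2 - u1) := by
  have hm := congrArg
    (fun g : Matrix.SpecialLinearGroup (Fin 2) K => (g : Matrix (Fin 2) (Fin 2) K)) h
  simp only [Matrix.SpecialLinearGroup.coe_mul, gm_val h1, gm_val h2, gm_val h3,
    Matrix.mul_fin_two] at hm
  have E11 := congrFun (congrFun hm 0) 0
  have E12 := congrFun (congrFun hm 0) 1
  have E21 := congrFun (congrFun hm 1) 0
  have E22 := congrFun (congrFun hm 1) 1
  simp only [Matrix.of_apply, Matrix.cons_val', Matrix.cons_val_zero, Matrix.cons_val_one,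
    Matrix.cons_val_fin_one] at E11 E12 E21 E22
  have i1 : J1 * J1⁻¹ = 1 := mul_inv_cancel₀ h1
  generalize J1⁻¹ = I1 at *
  generalize J2⁻¹ = I2 at *
  generalize J3⁻¹ = I3 at *
  refine ⟨?_, ?_, ?_, ?_⟩
  · linear_combination u2 * E21 + E22
  · linear_combination J1 * (E11 - v1 * E21) - (I2 + (v2 - u1) * c2) * i1
  · linear_combination -c1 * ((E11 - v1 * E21) * u3 + E12 - v1 * E22) + I1 * (E21 * u3 + E22)
      - (c2 * (u3 - u2) + J2) * i1
  · linear_combination (E11 - v1 * E21) * u2 + E12 - v1 * E22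

theorem gm_inj {u1 v1 J1 c1 u2 v2 J2 c2 : K} (h1 : J1 ≠ 0) (h2 : J2 ≠ 0)
    (h : gm u1 v1 J1 c1 = gm u2 v2 J2 c2) :
    c1 = c2 ∧ c1 * (u1 - u2) = J1 - J2 ∧ J1⁻¹ + v1 * c1 = J2⁻¹ + v2 * c2 := by
  have hm := congrArg
    (fun g : Matrix.SpecialLinearGroup (Fin 2) K => (g : Matrix (Fin 2) (Fin 2) K)) h
  simp only [gm_val h1, gm_val h2] at hm
  have E11 := congrFun (congrFun hm 0) 0
  have E21 := congrFun (congrFun hm 1) 0
  have E22 := congrFun (congrFun hm 1) 1
  simp only [Matrix.of_apply, Matrix.cons_val', Matrix.cons_val_zero, Matrix.cons_val_one,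
    Matrix.cons_val_fin_one] at E11 E21 E22
  refine ⟨E21, ?_, E11⟩
  linear_combination -E22 - u2 * E21

theorem card_SL_le [Finite K] :
    Nat.card (Matrix.SpecialLinearGroup (Fin 2) K) ≤ Nat.card K ^ 3 := by
  classical
  let f : Matrix.SpecialLinearGroup (Fin 2) K → K × K × K := fun g =>
    (g.1 0 0, g.1 1 0, if g.1 0 0 = 0 then g.1 1 1 else g.1 0 1)
  have hf : Function.Injective f := by
    intro g g' h
    have d := g.2
    have d' := g'.2
    rw [Matrix.det_fin_two] at d d'
    simp only [f, Prod.mk.injEq] at h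
    obtain ⟨ha, hc, hb⟩ := h
    rw [← ha] at hb
    have key : g.1 0 1 = g'.1 0 1 ∧ g.1 1 1 = g'.1 1 1 := by
      by_cases h0 : g.1 0 0 = 0
      · simp only [h0, if_true] at hb
        refine ⟨?_, hb⟩
        rw [← ha, ← hc, h0] at d'
        rw [h0] at d
        linear_combination (g'.1 0 1) * d - (g.1 0 1) * d'
      · simp only [h0, if_false] at hb
        refine ⟨hb, ?_⟩
        rw [← ha, ← hc, ← hb] at d'
        apply mul_left_cancel₀ h0
        linear_combination d - d'
    ext i j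
    fin_cases i <;> fin_cases j
    · exact ha
    · exact key.1
    · exact hc
    · exact key.2
  have := Nat.card_le_card_of_injective f hf
  rw [Nat.card_prod, Nat.card_prod] at this
  calc _ ≤ _ := this
    _ = _ := by ring

end mat

section tr
variable {k K : Type*} [Field k] [Field K] [Algebra k K]

/-- Gram entries of the form `(x, y) ↦ Tr (c * i x * i y)`. -/
noncomputable def fa (i : k × k →ₗ[k] K) (c : K) : k := Algebra.trace k K (c * i (1, 0) * i (1, 0))
/-- Gram entries of the form `(x, y) ↦ Tr (c * i x * i y)`. -/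
noncomputable def fb (i : k × k →ₗ[k] K) (c : K) : k := Algebra.trace k K (c * i (1, 0) * i (0, 1))
/-- Gram entries of the form `(x, y) ↦ Tr (c * i x * i y)`. -/
noncomputable def fd (i : k × k →ₗ[k] K) (c : K) : k := Algebra.trace k K (c * i (0, 1) * i (0, 1))
/-- The Gram determinant. -/
noncomputable def sg (i : k × k →ₗ[k] K) (c : K) : k := fa i c * fd i c - fb i c ^ 2

theorem tr_bf (i : k × k →ₗ[k] K) (c : K) (x y : k × k) :
    Algebra.trace k K (c * i x * i y) = bf (fa i c) (fb i c) (fd i c) x y := by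
  have hx : ∀ z : k × k, i z = z.1 • i (1, 0) + z.2 • i (0, 1) := by
    intro z
    rw [← map_smul, ← map_smul, ← map_add]
    congr 1
    ext <;> simp
  have : c * i x * i y = (x.1 * y.1) • (c * i (1, 0) * i (1, 0))
      + (x.1 * y.2 + x.2 * y.1) • (c * i (1, 0) * i (0, 1))
      + (x.2 * y.2) • (c * i (0, 1) * i (0, 1)) := by
    rw [hx x, hx y]
    simp only [Algebra.smul_def, map_mul, map_add]
    ring
  rw [this, map_add, map_add, map_smul, map_smul, map_smul]
  simp only [bf, fa, fb, fd, smul_eq_mul]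
  ring

theorem tr_mul (a : k) (y : K) :
    Algebra.trace k K (algebraMap k K a * y) = a * Algebra.trace k K y := by
  rw [← Algebra.smul_def, map_smul, smul_eq_mul]

theorem tr_rel {i : k × k →ₗ[k] K} (hi : ∀ x, Algebra.trace k K (i x) = 0) {c c' : K}
    {x y : k × k} {a b : k} (h : c * i x = algebraMap k K a * (c' * i y) + algebraMap k K b)
    (p : k × k) :
    bf (fa i c) (fb i c) (fd i c) p x = a * bf (fa i c') (fb i c') (fd i c') p y := by
  rw [← tr_bf, ← tr_bf]
  have : c * i p * i x = algebraMap k K a * (c' * i p * i y) + algebraMap k K b * i p := by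
    linear_combination i p * h
  rw [this, map_add, tr_mul, tr_mul, hi, mul_zero, add_zero]

theorem sg_zero (i : k × k →ₗ[k] K) : sg i 0 = 0 := by
  simp [sg, fa, fb, fd]

theorem sg_eq_zero [FiniteDimensional k K] [Algebra.IsSeparable k K] {i : k × k →ₗ[k] K}
    (hinj : Function.Injective i)
    (hs : ∀ y, Algebra.trace k K y = 0 → ∃ x, i x = y) {c : K} (hc : sg i c = 0) :
    ∃ x, c = (i x)⁻¹ := by
  by_cases hc0 : c = 0
  · exact ⟨0, by simp [hc0]⟩
  obtain ⟨x, hx, hp⟩ := exists_rad hc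
  obtain ⟨t, ht⟩ := Algebra.trace_surjective k K 1
  set z := c * i x with hz
  set κ := Algebra.trace k K (z * t)
  have hzk : z = algebraMap k K κ := by
    rw [← sub_eq_zero]
    apply (traceForm_nondegenerate k K).1
    intro y
    rw [Algebra.traceForm_apply]
    obtain ⟨w, hw⟩ := hs (y - algebraMap k K (Algebra.trace k K y) * t)
      (by rw [map_sub, tr_mul, ht, mul_one, sub_self])
    have h1 := hp w
    rw [← tr_bf, hw] at h1
    have : (z - algebraMap k K κ) * y = c * (y - algebraMap k K (Algebra.trace k K y) * t) * i x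
        + algebraMap k K (Algebra.trace k K y) * (z * t) - algebraMap k K κ * y := by
      rw [hz]; ring
    rw [this, map_sub, map_add, h1, tr_mul, tr_mul]
    ring
  have hix : i x ≠ 0 := fun h => hx (hinj (by rw [h, map_zero]))
  have hκ : algebraMap k K κ ≠ 0 := by rw [← hzk]; exact mul_ne_zero hc0 hix
  refine ⟨κ⁻¹ • x, ?_⟩
  rw [map_smul, Algebra.smul_def, map_inv₀, ← hzk, hz]
  field_simp

theorem exists_iota [FiniteDimensional k K] [Algebra.IsSeparable k K]
    (h3 : Module.finrank k K = 3) :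
    ∃ i : k × k →ₗ[k] K, Function.Injective i ∧ (∀ x, Algebra.trace k K (i x) = 0) ∧
      ∀ y, Algebra.trace k K y = 0 → ∃ x, i x = y := by
  have hr := LinearMap.finrank_range_add_finrank_ker (Algebra.trace k K)
  rw [LinearMap.range_eq_top.2 (Algebra.trace_surjective k K), finrank_top, Module.finrank_self,
    h3] at hr
  have hk : Module.finrank k (k × k) = Module.finrank k (LinearMap.ker (Algebra.trace k K)) := by
    rw [Module.finrank_prod, Module.finrank_self]; omega
  let e := LinearEquiv.ofFinrankEq _ _ hk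
  refine ⟨(LinearMap.ker (Algebra.trace k K)).subtype ∘ₗ e.toLinearMap, ?_, ?_, ?_⟩
  · exact Subtype.val_injective.comp e.injective
  · intro x
    exact (e x).2
  · intro y hy
    refine ⟨e.symm ⟨y, hy⟩, ?_⟩
    simp

end tr

end Pool.Agent.Lib.MP_65c863_al
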