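import Pool.Agent.Lib.MP_65c863_al.S4Mix

/-! Invariant spaces of functions on the special linear group of degree two are large. -/

open Matrix MatrixGroups Finset

namespace Pool.Agent.Lib.MP_65c863_al.S2

open Pool.Agent.Lib.MP_65c863_al.S4

variable {K : Type} [Field K]

/-- The underlying matrix. -/
def mt (A : SL(2, K)) : Matrix (Fin 2) (Fin 2) K := A.1

theorem sl_ext {A B : SL(2, K)} (h : mt A = mt B) : A = B := Subtype.ext h

theorem mt_mul (A B : SL(2, K)) : mt (A * B) = mt A * mt B := rfl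

/-- Upper unitriangular matrices. -/
def up (x : K) : SL(2, K) := ⟨!![1, x; 0, 1], by simp [det_fin_two]⟩

/-- Lower unitriangular matrices. -/
def lo (x : K) : SL(2, K) := ⟨!![1, 0; x, 1], by simp [det_fin_two]⟩

/-- The rotation. -/
def ro : SL(2, K) := ⟨!![0, -1; 1, 0], by simp [det_fin_two]⟩

/-- Diagonal matrices. -/
def dg (c : K) (hc : c ≠ 0) : SL(2, K) := ⟨!![c⁻¹, 0; 0, c], by simp [det_fin_two, hc]⟩

theorem mt_up (x : K) : mt (up x) = !![1, x; 0, 1] := rfl
theorem mt_lo (x : K) : mt (lo x) = !![1, 0; x, 1] := rfl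
theorem mt_ro : mt (ro : SL(2, K)) = !![0, -1; 1, 0] := rfl
theorem mt_dg (c : K) (hc : c ≠ 0) : mt (dg c hc) = !![c⁻¹, 0; 0, c] := rfl

theorem up_add (x y : K) : up (x + y) = up x * up y := by
  refine sl_ext ?_
  ext i j
  fin_cases i <;> fin_cases j <;> simp [mt_mul, mt_up, add_comm]

theorem up_zero : up (0 : K) = 1 := by
  refine sl_ext (mt_up _ |>.trans (?_ : _ = (1 : Matrix (Fin 2) (Fin 2) K)))
  ext i j
  fin_cases i <;> fin_cases j <;> simp

theorem up_dg (x c : K) (hc : c ≠ 0) : up x * dg c hc = dg c hc * up (x * c ^ 2) := by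
  refine sl_ext ?_
  ext i j
  fin_cases i <;> fin_cases j <;> simp [mt_mul, mt_up, mt_dg]
  field_simp

theorem lo_ro (x : K) : lo x * ro = ro * up (-x) := by
  refine sl_ext ?_
  ext i j
  fin_cases i <;> fin_cases j <;> simp [mt_mul, mt_up, mt_lo, mt_ro]

theorem decomp (g : SL(2, K)) (hc : mt g 1 0 ≠ 0) :
    g = up ((mt g 0 0 - 1) / mt g 1 0) * lo (mt g 1 0) * up ((mt g 1 1 - 1) / mt g 1 0) := by
  have hd : mt g 0 0 * mt g 1 1 - mt g 0 1 * mt g 1 0 = 1 := by
    have := g.2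
    rwa [det_fin_two] at this
  refine sl_ext ?_
  ext i j
  fin_cases i <;> fin_cases j <;> simp [mt_mul, mt_up, mt_lo, Matrix.mul_apply, Fin.sum_univ_two]
  all_goals field_simp
  all_goals first | ring1 | linear_combination (-1 : K) * hd

theorem normal_top (M : Subgroup SL(2, K)) (hM : ∀ g ∈ M, ∀ h, h * g * h⁻¹ ∈ M)
    (hn : ∀ x, up x ∈ M) (g : SL(2, K)) : g ∈ M := by
  have hl : ∀ x, lo x ∈ M := fun x => by
    have := hM _ (hn (-x)) ro
    rwa [← lo_ro, mul_inv_cancel_right] at this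
  have h1 : ∀ g : SL(2, K), mt g 1 0 ≠ 0 → g ∈ M := fun g hc => by
    rw [decomp g hc]
    exact M.mul_mem (M.mul_mem (hn _) (hl _)) (hn _)
  by_cases hc : mt g 1 0 = 0
  · have hd : mt g 0 0 * mt g 1 1 - mt g 0 1 * mt g 1 0 = 1 := by
      have := g.2
      rwa [det_fin_two] at this
    have h2 : mt (lo 1 * g) 1 0 ≠ 0 := by
      have : mt (lo 1 * g) 1 0 = mt g 0 0 + mt g 1 0 := by
        simp [mt_mul, mt_lo, Matrix.mul_apply, Fin.sum_univ_two]
      rw [this, hc, add_zero]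
      intro e
      rw [e, hc] at hd
      simp at hd
    have := M.mul_mem (M.inv_mem (hl 1)) (h1 _ h2)
    rwa [inv_mul_cancel_left] at this
  · exact h1 g hc

theorem exists_char {ψ : AddChar K ℂ} (hψ : ψ ≠ 1) {y : K} (hy : y ≠ 0) :
    ∃ x, ψ (x * y) ≠ 1 := by
  obtain ⟨a, ha⟩ := AddChar.ne_one_iff.1 hψ
  exact ⟨a / y, by rwa [div_mul_cancel₀ _ hy]⟩

variable [Fintype K] [DecidableEq K]

omit [DecidableEq K] in
theorem sum_char {ψ : AddChar K ℂ} (hψ : ψ ≠ 1) {x : K} (hx : x ≠ 0) :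
    ∑ y, ψ (-(x * y)) = 0 := by
  obtain ⟨z, hz⟩ := exists_char hψ hx
  have h := Fintype.sum_equiv (Equiv.subRight z) (fun y => ψ (z * x) * ψ (-(x * y)))
    (fun y => ψ (-(x * y))) fun y => by
      rw [← ψ.map_add_eq_mul, Equiv.subRight_apply]
      congr 1; ring
  rw [← mul_sum] at h
  by_contra h0
  exact hz (mul_right_cancel₀ h0 (h.trans (one_mul _).symm))

/-- `w` is a nonzero common eigenvector of the translations by `up x`. -/
def Eig (ψ : AddChar K ℂ) (W : Submodule ℂ (EuclideanSpace ℂ SL(2, K)))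
    (w : EuclideanSpace ℂ SL(2, K)) (y : K) : Prop :=
  w ∈ W ∧ w ≠ 0 ∧ ∀ x, R (up x) w = ψ (x * y) • w

variable {ψ : AddChar K ℂ} {W : Submodule ℂ (EuclideanSpace ℂ SL(2, K))}

theorem Eig.move (hW : ∀ h, ∀ f ∈ W, R h f ∈ W) {w} {y : K} (h : Eig ψ W w y)
    (c : K) (hc : c ≠ 0) : ∃ w', Eig ψ W w' (c ^ 2 * y) :=
  ⟨R (dg c hc) w, hW _ _ h.1,
    fun e => h.2.1 (by rw [← norm_eq_zero, ← norm_R (dg c hc), e, norm_zero]),
    fun x => by rw [← S4.R_mul, up_dg, S4.R_mul, h.2.2, map_smul, mul_assoc]⟩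

theorem exists_eig (hψ : ψ ≠ 1) (h0 : ∀ f ∈ W, ∑ x, f x = 0) (hW : ∀ h, ∀ f ∈ W, R h f ∈ W)
    (h1 : ∃ f ∈ W, f ≠ 0) : ∃ w y, y ≠ 0 ∧ Eig ψ W w y := by
  by_contra! hc
  have h2 : ∀ w ∈ W, ∀ x, R (up x) w = w := fun w hw => by
    let p : K → EuclideanSpace ℂ SL(2, K) := fun y => ∑ x, ψ (-(x * y)) • R (up x) w
    have p1 : ∀ y x, R (up x) (p y) = ψ (x * y) • p y := fun y x => by
      simp only [p, map_sum, map_smul, smul_sum, ← S4.R_mul, ← up_add, smul_smul, ← ψ.map_add_eq_mul]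
      refine Fintype.sum_equiv (Equiv.addLeft x) _ _ fun z => ?_
      rw [Equiv.coe_addLeft]
      congr 2; ring
    have p2 : ∀ y ≠ 0, p y = 0 := fun y hy => by
      by_contra h
      exact hc _ y hy ⟨W.sum_mem fun x _ => W.smul_mem _ (hW _ _ hw), h, p1 y⟩
    have p3 : ∑ y, p y = (Fintype.card K : ℂ) • w := by
      simp only [p]
      rw [sum_comm, Fintype.sum_eq_single 0 fun x hx => by rw [← sum_smul, sum_char hψ hx, zero_smul]]
      simp [up_zero, S4.R_one, ← Nat.cast_smul_eq_nsmul ℂ]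
    rw [Fintype.sum_eq_single 0 p2] at p3
    intro x
    have p4 := p1 0 x
    rw [p3, map_smul, mul_zero, ψ.map_zero_eq_one, one_smul] at p4
    exact smul_right_injective _ (Nat.cast_ne_zero.2 Fintype.card_ne_zero) p4
  let M : Subgroup SL(2, K) :=
    { carrier := {g | ∀ w ∈ W, R g w = w}
      one_mem' := fun w _ => S4.R_one w
      mul_mem' := fun ha hb w hw => by rw [S4.R_mul, hb w hw, ha w hw]
      inv_mem' := fun {a} ha w hw => by
        conv_lhs => rw [← ha w hw, ← S4.R_mul, inv_mul_cancel, S4.R_one] }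
  have h3 := normal_top M (fun g hg h w hw => by
    rw [S4.R_mul, S4.R_mul, hg _ (hW _ _ hw), ← S4.R_mul, mul_inv_cancel, S4.R_one]) fun x w hw => h2 w hw x
  obtain ⟨f, hf, h4⟩ := h1
  have h5 : ∀ g, f g = f 1 := fun g => by
    have := congrArg (fun u : EuclideanSpace ℂ SL(2, K) => u 1) (h3 g f hf)
    simpa [S4.R_apply] using this
  have h6 := h0 f hf
  rw [sum_congr rfl fun g _ => h5 g, sum_const, card_univ, nsmul_eq_mul] at h6
  refine h4 ?_
  ext g
  rw [h5 g, (mul_eq_zero.1 h6).resolve_left (Nat.cast_ne_zero.2 Fintype.card_ne_zero)]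
  rfl

theorem card_sq : Fintype.card K - 1 ≤ 2 * ((univ.erase (0 : K)).image fun c => c ^ 2).card := by
  have h := card_le_mul_card_image (f := fun c : K => c ^ 2) (univ.erase (0 : K)) 2 (by
    intro b hb
    obtain ⟨c, -, rfl⟩ := mem_image.1 hb
    refine le_trans (card_le_card (t := {c, -c}) fun x hx => ?_) card_le_two
    have := (mem_filter.1 hx).2
    simpa using sq_eq_sq_iff_eq_or_eq_neg.1 this)
  rwa [card_erase_of_mem (mem_univ _), card_univ] at h

theorem quasi : Quasi SL(2, K) ((Fintype.card K - 1) / 2) := by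
  intro W h0 hW h1
  obtain ⟨ψ, hψ⟩ := (AddChar.exists_apply_ne_zero (a := (1 : K))).2 one_ne_zero
  replace hψ : ψ ≠ 1 := fun e => hψ (by simp [e])
  obtain ⟨w, y, hy, h⟩ := exists_eig hψ h0 hW h1
  have h2 : ∀ p : ((univ.erase (0 : K)).image fun c => c ^ 2), ∃ v, Eig ψ W v (p.1 * y) := fun p => by
    obtain ⟨c, hc, e⟩ := mem_image.1 p.2
    rw [← e]
    exact h.move hW c (ne_of_mem_erase hc)
  choose v hv using h2
  refine ⟨_, inferInstance, fun p => (‖v p‖ : ℂ)⁻¹ • v p, ?_, ⟨fun p => ?_, fun p p' hp => ?_⟩,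
    fun p => W.smul_mem _ (hv p).1⟩
  · rw [Fintype.card_coe]
    have := card_sq (K := K)
    omega
  · simp [norm_smul, (hv p).2.1]
  · obtain ⟨x, hx⟩ := exists_char hψ (y := p'.1 * y - p.1 * y) fun e => hp (by
      exact Subtype.ext (mul_right_cancel₀ hy (sub_eq_zero.1 e)).symm)
    have h3 := inner_R (up x) (v p) (v p')
    rw [(hv p).2.2, (hv p').2.2, inner_smul_left, inner_smul_right, ← mul_assoc,
      ← AddChar.map_neg_eq_conj, ← ψ.map_add_eq_mul, neg_add_eq_sub, ← mul_sub] at h3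
    have h4 : inner ℂ (v p) (v p') = 0 := by
      by_contra h4
      exact hx (mul_right_cancel₀ h4 (h3.trans (one_mul _).symm))
    simp only [inner_smul_left, inner_smul_right, h4, mul_zero]

end Pool.Agent.Lib.MP_65c863_al.S2
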