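import Pool.Agent.Lib.MP_65c863_al.S4Mix

/-! Invariant spaces of functions on the special linear group of degree four are large. -/

open Matrix MatrixGroups Finset

namespace Pool.Agent.Lib.MP_65c863_al.S4

variable {K : Type} [Field K]

/-- The underlying matrix. -/
def mt (A : SL(4, K)) : Matrix (Fin 4) (Fin 4) K := A.1

theorem sl_ext {A B : SL(4, K)} (h : mt A = mt B) : A = B := Subtype.ext h

theorem mt_mul (A B : SL(4, K)) : mt (A * B) = mt A * mt B := rfl

theorem mt_tv {i j : Fin 4} (h : i ≠ j) (b : K) :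
    mt (SpecialLinearGroup.transvection h b) = 1 + single i j b := rfl

/-- Transvections with a fixed centre. -/
def nn (x : Fin 3 → K) : SL(4, K) :=
  ⟨!![1, x 0, x 1, x 2; 0, 1, 0, 0; 0, 0, 1, 0; 0, 0, 0, 1], by
    simp [det_succ_row_zero, Fin.sum_univ_succ, Fin.succAbove]⟩

/-- Block diagonal matrices. -/
def bk (M : Matrix (Fin 3) (Fin 3) K) (h : M.det = 1) : SL(4, K) :=
  ⟨!![1, 0, 0, 0; 0, M 0 0, M 0 1, M 0 2; 0, M 1 0, M 1 1, M 1 2; 0, M 2 0, M 2 1, M 2 2], by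
    rw [det_fin_three] at h
    simp [det_succ_row_zero, Fin.sum_univ_succ, Fin.succAbove]
    linear_combination h⟩

theorem mt_nn (x : Fin 3 → K) :
    mt (nn x) = !![1, x 0, x 1, x 2; 0, 1, 0, 0; 0, 0, 1, 0; 0, 0, 0, 1] := rfl

theorem mt_bk (M : Matrix (Fin 3) (Fin 3) K) (h : M.det = 1) : mt (bk M h) =
    !![1, 0, 0, 0; 0, M 0 0, M 0 1, M 0 2; 0, M 1 0, M 1 1, M 1 2; 0, M 2 0, M 2 1, M 2 2] := rfl

theorem nn_add (x y : Fin 3 → K) : nn (x + y) = nn x * nn y := by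
  refine sl_ext ?_
  ext i j
  fin_cases i <;> fin_cases j <;> simp [mt_mul, mt_nn, add_comm]

theorem nn_zero : nn (0 : Fin 3 → K) = 1 := by
  refine sl_ext (mt_nn _ |>.trans (?_ : _ = (1 : Matrix (Fin 4) (Fin 4) K)))
  ext i j
  fin_cases i <;> fin_cases j <;> simp

theorem nn_bk (x : Fin 3 → K) (M : Matrix (Fin 3) (Fin 3) K) (h : M.det = 1) :
    nn x * bk M h = bk M h * nn (x ᵥ* M) := by
  refine sl_ext ?_
  ext i j
  fin_cases i <;> fin_cases j <;>
    simp [mt_mul, mt_nn, mt_bk, vecMul, dotProduct, Fin.sum_univ_three, add_assoc]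

open SpecialLinearGroup in
theorem tv_comm {i j k : Fin 4} (h1 : i ≠ j) (h2 : j ≠ k) (h3 : i ≠ k) (a b : K) :
    transvection h1 a * transvection h2 b =
      transvection h3 (a * b) * transvection h2 b * transvection h1 a := by
  refine sl_ext ?_
  simp only [mt_mul, mt_tv, mul_add, add_mul, one_mul, mul_one,
    single_mul_single_same, single_mul_single_of_ne _ _ _ _ h2.symm,
    single_mul_single_of_ne _ _ _ _ h3.symm, add_zero]
  abel

open SpecialLinearGroup in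
theorem tv_diag {i j : Fin 4} (h : i ≠ j) {c : K} (hc : c ≠ 0) :
    diag2n h c hc = transvection h c * transvection h.symm (-c⁻¹) * transvection h c *
      (transvection h (-1) * transvection h.symm 1 * transvection h (-1)) := by
  refine sl_ext ?_
  have h1 : ∀ d : K, d ≠ 0 → mt (transvection h d * transvection h.symm (-d⁻¹) * transvection h d)
      = 1 - single i i 1 - single j j 1 + single i j d - single j i d⁻¹ := fun d hd => by
    simp only [mt_mul, mt_tv, mul_add, add_mul, one_mul, mul_one,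
      single_mul_single_same, single_mul_single_of_ne _ _ _ _ h.symm, add_zero, mul_neg, neg_mul,
      mul_inv_cancel₀ hd, inv_mul_cancel₀ hd, ← single_neg]
    abel
  have h2 := h1 (-1) (by simp)
  rw [inv_neg_one, neg_neg] at h2
  rw [mt_mul, h1 c hc, h2, show mt (diag2n h c hc) = _ from diag2n_coe h c hc]
  simp only [mul_add, add_mul, mul_sub, sub_mul, one_mul, mul_one, single_mul_single_same,
    single_mul_single_of_ne _ _ _ _ h.symm, single_mul_single_of_ne _ _ _ _ h]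
  ext a b
  simp only [Matrix.add_apply, Matrix.sub_apply, single_apply, diagonal_apply, one_apply,
    Matrix.zero_apply]
  clear h1 h2
  grind

open SpecialLinearGroup in
theorem normal_top (M : Subgroup SL(4, K)) (hM : ∀ g ∈ M, ∀ h, h * g * h⁻¹ ∈ M)
    (hn : ∀ x, nn x ∈ M) (g : SL(4, K)) : g ∈ M := by
  have c1 : ∀ {i j k : Fin 4} (h1 : i ≠ j) (h2 : j ≠ k) (h3 : i ≠ k) (a b : K),
      transvection h1 a ∈ M ∨ transvection h2 b ∈ M → transvection h3 (a * b) ∈ M := by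
    intro i j k h1 h2 h3 a b h
    have e : transvection h3 (a * b) = transvection h1 a * transvection h2 b *
        (transvection h1 a)⁻¹ * (transvection h2 b)⁻¹ := by
      rw [tv_comm h1 h2 h3]; group
    rcases h with h | h
    · have := M.mul_mem h (hM _ (M.inv_mem h) (transvection h2 b))
      rwa [e, mul_assoc, mul_assoc, ← mul_assoc (transvection h2 b)]
    · exact e ▸ M.mul_mem (hM _ h _) (M.inv_mem h)
  have c2 : ∀ (j : Fin 4) (h : 0 ≠ j) (a : K), transvection h a ∈ M := fun j h a => by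
    obtain ⟨k, rfl⟩ := Fin.exists_succ_eq.2 h.symm
    convert hn (Pi.single k a) using 1
    refine sl_ext ?_
    ext i j
    fin_cases k <;> fin_cases i <;> fin_cases j <;> simp [mt_nn, mt_tv]
  have c3 : ∀ (i j : Fin 4) (h : i ≠ j) (a : K), j ≠ 0 → transvection h a ∈ M :=
    fun i j h a hj => by
      rcases eq_or_ne i 0 with rfl | hi
      · exact c2 j h a
      · exact one_mul a ▸ c1 hi hj.symm h 1 a (Or.inr (c2 j _ a))
  have c4 : ∀ (i j : Fin 4) (h : i ≠ j) (a : K), transvection h a ∈ M := fun i j h a => by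
    rcases eq_or_ne j 0 with rfl | hj
    · obtain ⟨k, h1, h2⟩ : ∃ k : Fin 4, i ≠ k ∧ k ≠ 0 := by revert i; decide
      exact mul_one a ▸ c1 h1 h2 h a 1 (Or.inl (c3 i k h1 a h2))
    · exact c3 i j h a hj
  refine diagonal_transvection_induction' (· ∈ M) g (fun i j h c hc => ?_) c4
    fun _ _ => M.mul_mem
  rw [tv_diag]
  exact M.mul_mem (M.mul_mem (M.mul_mem (c4 _ _ _ _) (c4 _ _ _ _)) (c4 _ _ _ _))
    (M.mul_mem (M.mul_mem (c4 _ _ _ _) (c4 _ _ _ _)) (c4 _ _ _ _))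

theorem exists_char {ψ : AddChar K ℂ} (hψ : ψ ≠ 1) {y : Fin 3 → K} (hy : y ≠ 0) :
    ∃ x, ψ (x ⬝ᵥ y) ≠ 1 := by
  obtain ⟨a, ha⟩ := AddChar.ne_one_iff.1 hψ
  obtain ⟨k, hk⟩ := Function.ne_iff.1 hy
  exact ⟨Pi.single k (a / y k), by rwa [single_dotProduct, div_mul_cancel₀ _ hk]⟩

variable [Fintype K] [DecidableEq K]

omit [DecidableEq K] in
theorem sum_char {ψ : AddChar K ℂ} (hψ : ψ ≠ 1) {x : Fin 3 → K} (hx : x ≠ 0) :
    ∑ y, ψ (-(x ⬝ᵥ y)) = 0 := by
  obtain ⟨z, hz⟩ := exists_char hψ hx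
  have h := Fintype.sum_equiv (Equiv.subRight z) (fun y => ψ (z ⬝ᵥ x) * ψ (-(x ⬝ᵥ y)))
    (fun y => ψ (-(x ⬝ᵥ y))) fun y => by
      rw [← ψ.map_add_eq_mul, Equiv.subRight_apply, dotProduct_sub, dotProduct_comm z]
      congr 1; ring
  rw [← mul_sum] at h
  by_contra h0
  exact hz (mul_right_cancel₀ h0 (h.trans (one_mul _).symm))

/-- `w` is a nonzero common eigenvector of the translations by `nn x`. -/
def Eig (ψ : AddChar K ℂ) (W : Submodule ℂ (EuclideanSpace ℂ SL(4, K)))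
    (w : EuclideanSpace ℂ SL(4, K)) (y : Fin 3 → K) : Prop :=
  w ∈ W ∧ w ≠ 0 ∧ ∀ x, R (nn x) w = ψ (x ⬝ᵥ y) • w

variable {ψ : AddChar K ℂ} {W : Submodule ℂ (EuclideanSpace ℂ SL(4, K))}

theorem Eig.move (hW : ∀ h, ∀ f ∈ W, R h f ∈ W) {w} {y : Fin 3 → K} (h : Eig ψ W w y)
    (M : Matrix (Fin 3) (Fin 3) K) (hM : M.det = 1) : ∃ w', Eig ψ W w' (M *ᵥ y) :=
  ⟨R (bk M hM) w, hW _ _ h.1, fun e => h.2.1 (by rw [← norm_eq_zero, ← norm_R (bk M hM), e, norm_zero]),
    fun x => by rw [← R_mul, nn_bk, R_mul, h.2.2, map_smul, dotProduct_mulVec]⟩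

theorem exists_eig (hψ : ψ ≠ 1) (h0 : ∀ f ∈ W, ∑ x, f x = 0) (hW : ∀ h, ∀ f ∈ W, R h f ∈ W)
    (h1 : ∃ f ∈ W, f ≠ 0) : ∃ w y, y ≠ 0 ∧ Eig ψ W w y := by
  by_contra! hc
  have h2 : ∀ w ∈ W, ∀ x, R (nn x) w = w := fun w hw => by
    let p : (Fin 3 → K) → EuclideanSpace ℂ SL(4, K) := fun y => ∑ x, ψ (-(x ⬝ᵥ y)) • R (nn x) w
    have p1 : ∀ y x, R (nn x) (p y) = ψ (x ⬝ᵥ y) • p y := fun y x => by
      simp only [p, map_sum, map_smul, smul_sum, ← R_mul, ← nn_add, smul_smul, ← ψ.map_add_eq_mul]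
      refine Fintype.sum_equiv (Equiv.addLeft x) _ _ fun z => ?_
      rw [Equiv.coe_addLeft, add_dotProduct]
      congr 2; ring
    have p2 : ∀ y ≠ 0, p y = 0 := fun y hy => by
      by_contra h
      exact hc _ y hy ⟨W.sum_mem fun x _ => W.smul_mem _ (hW _ _ hw), h, p1 y⟩
    have p3 : ∑ y, p y = (Fintype.card (Fin 3 → K) : ℂ) • w := by
      simp only [p]
      rw [sum_comm, Fintype.sum_eq_single 0 fun x hx => by rw [← sum_smul, sum_char hψ hx, zero_smul]]
      simp [nn_zero, R_one, ← Nat.cast_smul_eq_nsmul ℂ]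
    rw [Fintype.sum_eq_single 0 p2] at p3
    intro x
    have p4 := p1 0 x
    rw [p3, map_smul, dotProduct_zero, ψ.map_zero_eq_one, one_smul] at p4
    exact smul_right_injective _ (Nat.cast_ne_zero.2 Fintype.card_ne_zero) p4
  let M : Subgroup SL(4, K) :=
    { carrier := {g | ∀ w ∈ W, R g w = w}
      one_mem' := fun w _ => R_one w
      mul_mem' := fun ha hb w hw => by rw [R_mul, hb w hw, ha w hw]
      inv_mem' := fun {a} ha w hw => by
        conv_lhs => rw [← ha w hw, ← R_mul, inv_mul_cancel, R_one] }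
  have h3 := normal_top M (fun g hg h w hw => by
    rw [R_mul, R_mul, hg _ (hW _ _ hw), ← R_mul, mul_inv_cancel, R_one]) fun x w hw => h2 w hw x
  obtain ⟨f, hf, h4⟩ := h1
  have h5 : ∀ g, f g = f 1 := fun g => by
    have := congrArg (fun u : EuclideanSpace ℂ SL(4, K) => u 1) (h3 g f hf)
    simpa [R_apply] using this
  have h6 := h0 f hf
  rw [sum_congr rfl fun g _ => h5 g, sum_const, card_univ, nsmul_eq_mul] at h6
  refine h4 ?_
  ext g
  rw [h5 g, (mul_eq_zero.1 h6).resolve_left (Nat.cast_ne_zero.2 Fintype.card_ne_zero)]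
  rfl

theorem quasi : Quasi SL(4, K) ((Fintype.card K - 1) * Fintype.card K ^ 2) := by
  intro W h0 hW h1
  obtain ⟨ψ, hψ⟩ := (AddChar.exists_apply_ne_zero (a := (1 : K))).2 one_ne_zero
  replace hψ : ψ ≠ 1 := fun e => hψ (by simp [e])
  obtain ⟨w, y, hy, h⟩ : ∃ w y, y 0 ≠ 0 ∧ Eig ψ W w y := by
    obtain ⟨w, y, hy, h⟩ := exists_eig hψ h0 hW h1
    by_cases e0 : y 0 = 0
    swap
    · exact ⟨w, y, e0, h⟩
    by_cases e1 : y 1 = 0
    · obtain ⟨w', h'⟩ := h.move hW !![1, 0, 1; 0, 1, 0; 0, 0, 1] (by simp [det_fin_three])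
      refine ⟨w', _, fun e => hy ?_, h'⟩
      ext i
      fin_cases i
      exacts [e0, e1, by simpa [mulVec, dotProduct, Fin.sum_univ_three, e0] using e]
    · obtain ⟨w', h'⟩ := h.move hW !![1, 1, 0; 0, 1, 0; 0, 0, 1] (by simp [det_fin_three])
      exact ⟨w', _, by simpa [mulVec, dotProduct, Fin.sum_univ_three, e0] using e1, h'⟩
  have h2 : ∀ p : Kˣ × K × K, ∃ v, Eig ψ W v ![p.1, p.2.1, p.2.2] := fun p => by
    have h3 := p.1.ne_zero
    obtain ⟨v, hv⟩ := h.move hW !![p.1 / y 0, 0, 0; (p.2.1 - y 0 / p.1 * y 1) / y 0, y 0 / p.1, 0;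
      (p.2.2 - y 2) / y 0, 0, 1] (by simp [det_fin_three, hy])
    refine ⟨v, ?_⟩
    convert hv using 1
    ext i
    fin_cases i <;> simp [mulVec, dotProduct, Fin.sum_univ_three, hy]
  choose v hv using h2
  refine ⟨Kˣ × K × K, inferInstance, fun p => (‖v p‖ : ℂ)⁻¹ • v p, ?_, ⟨fun p => ?_, fun p p' hp => ?_⟩,
    fun p => W.smul_mem _ (hv p).1⟩
  · simp [Fintype.card_units, sq]
  · simp [norm_smul, (hv p).2.1]
  · obtain ⟨x, hx⟩ := exists_char hψ (y := ![(p'.1 : K), p'.2.1, p'.2.2] - ![(p.1 : K), p.2.1, p.2.2]) fun e => hp (by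
      have e' := sub_eq_zero.1 e
      exact Prod.ext (Units.ext (congrFun e' 0).symm)
        (Prod.ext (congrFun e' 1).symm (congrFun e' 2).symm))
    have h3 := inner_R (nn x) (v p) (v p')
    rw [(hv p).2.2, (hv p').2.2, inner_smul_left, inner_smul_right, ← mul_assoc,
      ← AddChar.map_neg_eq_conj, ← ψ.map_add_eq_mul, neg_add_eq_sub, ← dotProduct_sub] at h3
    have h4 : inner ℂ (v p) (v p') = 0 := by
      by_contra h4
      exact hx (mul_right_cancel₀ h4 (h3.trans (one_mul _).symm))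
    simp only [inner_smul_left, inner_smul_right, h4, mul_zero]

end Pool.Agent.Lib.MP_65c863_al.S4
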