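import Mathlib

/-! A large product-free set in the special linear group of degree four. -/

open Matrix MatrixGroups

namespace Pool.Agent.Lib.MP_65c863_al.S4

variable {K : Type} [Field K]

/-- The lower left block has rank one, and four slopes lie in prescribed sets. -/
def Good (X Y : Set K) (g : SL(4, K)) : Prop :=
  ∃ r s t u v l m : K, r ≠ 0 ∧ l ≠ 0 ∧ m ≠ 0 ∧ s ∈ Y ∧ t ∈ X ∧ u ∈ X ∧ v ∈ Y ∧
    g 2 0 = r ∧ g 2 1 = r * s ∧ g 3 0 = r * t ∧ g 3 1 = r * s * t ∧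
    g 0 1 = s * g 0 0 - l * u ∧ g 1 1 = s * g 1 0 + l ∧
    g 3 2 = t * g 2 2 - m * v ∧ g 3 3 = t * g 2 3 + m

theorem good_free {X Y : Set K} (h : Disjoint X Y) {a b : SL(4, K)} (ha : Good X Y a)
    (hb : Good X Y b) : ¬ Good X Y (a * b) := by
  obtain ⟨r, s, t, u, v, l, m, a1, -, a2, a3, -, -, a4, a5, a6, a7, a8, -, -, a9, a10⟩ := ha
  obtain ⟨r', s', t', u', v', l', m', b1, b2, -, -, b3, b4, -, b5, b6, b7, b8, b9, b10, -, -⟩ := hb
  rintro ⟨r'', s'', t'', -, -, -, -, -, -, -, -, -, -, -, c1, c2, c3, c4, -⟩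
  have h1 : (a * b) 2 0 * (a * b) 3 1 - (a * b) 2 1 * (a * b) 3 0 = 0 := by
    rw [c1, c2, c3, c4]; ring
  have hm : ∀ i j, (a * b) i j = ∑ k, a i k * b k j := fun i j => Matrix.mul_apply
  simp only [hm, Fin.sum_univ_four, a5, a6, a7, a8, a9, a10, b5, b6, b7, b8, b9, b10] at h1
  have h2 : r * r' * m * l' * (t' - v) * (s - u') = 0 := by linear_combination -h1
  have h3 : t' - v ≠ 0 := sub_ne_zero.2 fun e => Set.disjoint_left.1 h b3 (e ▸ a4)
  have h4 : s - u' ≠ 0 := sub_ne_zero.2 fun e => Set.disjoint_left.1 h b4 (e ▸ a3)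
  simp [a1, a2, b1, b2, h3, h4] at h2

/-- A parametrisation of such matrices. -/
def par (x : Fin 7 → K) (r l m : Kˣ) (s t u v : K) : SL(4, K) :=
  ⟨!![x 0, s * x 0 - l * u,
      ((x 0 + u * x 1) * (x 2 + v * x 3) - (l * m : K)⁻¹) / r - u * x 5 - v * x 4 - u * v * x 6, x 4;
      x 1, s * x 1 + l, x 5, x 6;
      r, r * s, x 2, x 3;
      r * t, r * s * t, t * x 2 - m * v, t * x 3 + m], by
    have h1 := r.ne_zero
    have h2 := l.ne_zero
    have h3 := m.ne_zero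
    simp [det_succ_row_zero, Fin.sum_univ_succ, Fin.succAbove]
    field_simp
    ring⟩

theorem par_good {X Y : Set K} (x : Fin 7 → K) (r l m : Kˣ) {s t u v : K} (hs : s ∈ Y)
    (ht : t ∈ X) (hu : u ∈ X) (hv : v ∈ Y) : Good X Y (par x r l m s t u v) :=
  ⟨r, s, t, u, v, l, m, r.ne_zero, l.ne_zero, m.ne_zero, hs, ht, hu, hv,
    rfl, rfl, rfl, rfl, rfl, rfl, rfl, rfl⟩

theorem card_good [Finite K] (X Y : Set K) :
    Nat.card K ^ 7 * (Nat.card K - 1) ^ 3 * (X.ncard * Y.ncard) ^ 2 ≤ {g | Good X Y g}.ncard := by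
  let F : (Fin 7 → K) × (Kˣ × Kˣ × Kˣ) × (Y × X × X × Y) → {g | Good X Y g} := fun p =>
    ⟨par p.1 p.2.1.1 p.2.1.2.1 p.2.1.2.2 p.2.2.1 p.2.2.2.1 p.2.2.2.2.1 p.2.2.2.2.2,
      par_good _ _ _ _ p.2.2.1.2 p.2.2.2.1.2 p.2.2.2.2.1.2 p.2.2.2.2.2.2⟩
  have hF : Function.Injective F := by
    rintro ⟨x, ⟨r, l, m⟩, ⟨s, hs⟩, ⟨t, ht⟩, ⟨u, hu⟩, ⟨v, hv⟩⟩
      ⟨x', ⟨r', l', m'⟩, ⟨s', hs'⟩, ⟨t', ht'⟩, ⟨u', hu'⟩, ⟨v', hv'⟩⟩ h
    have e : ∀ i j, par x r l m s t u v i j = par x' r' l' m' s' t' u' v' i j := fun i j =>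
      congrArg (fun g : {g | Good X Y g} => g.1 i j) h
    have e0 : x 0 = x' 0 := e 0 0
    have e1 : x 1 = x' 1 := e 1 0
    have e2 : x 2 = x' 2 := e 2 2
    have e3 : x 3 = x' 3 := e 2 3
    have e4 : x 4 = x' 4 := e 0 3
    have e5 : x 5 = x' 5 := e 1 2
    have e6 : x 6 = x' 6 := e 1 3
    obtain rfl : x = x' := by
      ext i; fin_cases i
      exacts [e0, e1, e2, e3, e4, e5, e6]
    obtain rfl : r = r' := Units.ext (e 2 0)
    obtain rfl : s = s' := mul_left_cancel₀ r.ne_zero (e 2 1)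
    obtain rfl : t = t' := mul_left_cancel₀ r.ne_zero (e 3 0)
    obtain rfl : l = l' := Units.ext (add_left_cancel (e 1 1))
    obtain rfl : m = m' := Units.ext (add_left_cancel (e 3 3))
    obtain rfl : u = u' := mul_left_cancel₀ l.ne_zero (sub_right_injective (e 0 1))
    obtain rfl : v = v' := mul_left_cancel₀ m.ne_zero (sub_right_injective (e 3 2))
    rfl
  have := Nat.card_le_card_of_injective F hF
  simp only [Nat.card_prod, Nat.card_fun, Nat.card_units, Nat.card_coe_set_eq, Nat.card_eq_fintype_card,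
    Fintype.card_fin] at this
  refine le_trans (Eq.le ?_) this
  ring

theorem card_SL [Finite K] : Nat.card SL(4, K) * (Nat.card K - 1) ≤ Nat.card K ^ 16 := by
  let F : SL(4, K) × Kˣ → Matrix (Fin 4) (Fin 4) K := fun p =>
    diagonal ![(p.2 : K), 1, 1, 1] * p.1.1
  have hd : ∀ p, (F p).det = p.2 := fun p => by
    simp [F, Fin.prod_univ_four]
  have hF : Function.Injective F := by
    rintro ⟨g, c⟩ ⟨g', c'⟩ h
    obtain rfl : c = c' := Units.ext (by simpa [hd] using congrArg det h)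
    have hu : IsUnit (diagonal ![(c : K), 1, 1, 1]) := by
      rw [isUnit_iff_isUnit_det]
      simp [Fin.prod_univ_four]
    obtain rfl : g = g' := Subtype.ext (hu.mul_left_cancel h)
    rfl
  have := Nat.card_le_card_of_injective F hF
  rw [Nat.card_prod, Nat.card_units] at this
  refine this.trans_eq ?_
  change Nat.card (Fin 4 → Fin 4 → K) = _
  simp only [Nat.card_fun, Nat.card_eq_fintype_card, Fintype.card_fin, ← pow_mul]

theorem lower [Finite K] : ∃ S : Set SL(4, K), (∀ a ∈ S, ∀ b ∈ S, a * b ∉ S) ∧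
    Nat.card SL(4, K) ≤ 500 * Nat.card K * S.ncard := by
  obtain ⟨X, -, hX⟩ := Set.exists_subset_card_eq (s := (Set.univ : Set K)) (n := Nat.card K / 2)
    (by rw [Set.ncard_univ]; exact Nat.div_le_self _ _)
  refine ⟨{g | Good X Xᶜ g}, fun a ha b hb => good_free disjoint_compl_right ha hb, ?_⟩
  have h1 := card_good X Xᶜ
  have h2 := card_SL (K := K)
  have h3 := Set.ncard_add_ncard_compl X
  have h4 : 2 ≤ Nat.card K := Finite.one_lt_card
  obtain ⟨p, hp⟩ : ∃ p, Nat.card K = p + 1 := ⟨Nat.card K - 1, by omega⟩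
  rw [hp] at h1 h2 h3 h4 hX ⊢
  simp only [Nat.add_sub_cancel] at h1 h2
  set x := X.ncard
  set y := Xᶜ.ncard
  have h5 : 3 * (p + 1) ^ 2 ≤ 16 * (x * y) := by
    rcases Nat.even_or_odd' (p + 1) with ⟨k, h | h⟩
    · obtain rfl : x = k := by omega
      obtain h6 : y = x := by omega
      rw [h, h6]; nlinarith
    · obtain rfl : x = k := by omega
      obtain h6 : y = x + 1 := by omega
      have : 1 ≤ x := by omega
      rw [h, h6]; nlinarith
  have h6 : p + 1 ≤ 2 * p := by omega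
  refine Nat.le_of_mul_le_mul_right (h2.trans ?_) (show 0 < p by omega)
  have h7 : (p + 1) ^ 16 * 9 ≤ 4096 * ((p + 1) * ((p + 1) ^ 7 * p ^ 3 * (x * y) ^ 2) * p) :=
    calc (p + 1) ^ 16 * 9 = (p + 1) ^ 8 * (p + 1) ^ 4 * (3 * (p + 1) ^ 2) ^ 2 := by ring
      _ ≤ (p + 1) ^ 8 * (2 * p) ^ 4 * (16 * (x * y)) ^ 2 := by gcongr
      _ = _ := by ring
  have h8 : (p + 1) * ((p + 1) ^ 7 * p ^ 3 * (x * y) ^ 2) * p
      ≤ (p + 1) * {g | Good X Xᶜ g}.ncard * p := by gcongr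
  nlinarith

end Pool.Agent.Lib.MP_65c863_al.S4
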