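import Mathlib

/-! The quasirandomness bound for product-free sets in a finite group. -/

open Finset WithLp

namespace Pool.Agent.Lib.MP_65c863_al.S4

variable {G : Type} [Group G] [Fintype G]

/-- Right translation of functions on the group. -/
def R (h : G) : EuclideanSpace ℂ G →ₗ[ℂ] EuclideanSpace ℂ G where
  toFun f := toLp 2 fun x => f (x * h)
  map_add' _ _ := rfl
  map_smul' _ _ := rfl

/-- Convolution with the indicator of `A`. -/
def T (A : Finset G) : EuclideanSpace ℂ G →ₗ[ℂ] EuclideanSpace ℂ G where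
  toFun f := toLp 2 fun x => ∑ a ∈ A, f (a⁻¹ * x)
  map_add' f g := by ext x; simp [sum_add_distrib]
  map_smul' c f := by ext x; simp [mul_sum]

omit [Fintype G] in
theorem R_apply (h : G) (f : EuclideanSpace ℂ G) (x : G) : R h f x = f (x * h) := rfl

omit [Fintype G] in
theorem T_apply (A : Finset G) (f : EuclideanSpace ℂ G) (x : G) :
    T A f x = ∑ a ∈ A, f (a⁻¹ * x) := rfl

omit [Fintype G] in
theorem R_mul (g h : G) (f : EuclideanSpace ℂ G) : R (g * h) f = R g (R h f) := by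
  ext x; simp only [R_apply, mul_assoc]

omit [Fintype G] in
theorem R_one (f : EuclideanSpace ℂ G) : R 1 f = f := by
  ext x; simp only [R_apply, mul_one]

omit [Fintype G] in
theorem T_R (A : Finset G) (h : G) (f : EuclideanSpace ℂ G) : T A (R h f) = R h (T A f) := by
  ext x; simp only [R_apply, T_apply, mul_assoc]

theorem inner_R (h : G) (f g : EuclideanSpace ℂ G) : inner ℂ (R h f) (R h g) = inner ℂ f g := by
  simp only [PiLp.inner_apply, R_apply]
  exact Fintype.sum_equiv (Equiv.mulRight h) _ _ fun _ => rfl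

theorem norm_R (h : G) (f : EuclideanSpace ℂ G) : ‖R h f‖ = ‖f‖ := by
  rw [@norm_eq_sqrt_re_inner ℂ, @norm_eq_sqrt_re_inner ℂ, inner_R]

theorem sum_R (h : G) (f : EuclideanSpace ℂ G) : ∑ x, R h f x = ∑ x, f x :=
  Fintype.sum_equiv (Equiv.mulRight h) _ _ fun _ => rfl

/-- Every nonzero translation invariant space of functions of mean zero holds `D` orthonormal
functions. -/
def Quasi (G : Type) [Group G] [Fintype G] (D : ℕ) : Prop :=
  ∀ W : Submodule ℂ (EuclideanSpace ℂ G), (∀ f ∈ W, ∑ x, f x = 0) → (∀ h, ∀ f ∈ W, R h f ∈ W) →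
    (∃ f ∈ W, f ≠ 0) → ∃ (ι : Type) (_ : Fintype ι) (w : ι → EuclideanSpace ℂ G),
      D ≤ Fintype.card ι ∧ Orthonormal ℂ w ∧ ∀ i, w i ∈ W

theorem bessel (A : Finset G) {ι : Type} [Fintype ι] {w : ι → EuclideanSpace ℂ G}
    (hw : Orthonormal ℂ w) : ∑ i, ‖T A (w i)‖ ^ 2 ≤ (A.card : ℝ) * Fintype.card G := by
  classical
  simp only [EuclideanSpace.norm_sq_eq]
  rw [sum_comm]
  have h : ∀ x : G, ∑ i, ‖T A (w i) x‖ ^ 2 ≤ (A.card : ℝ) := fun x => by
    let k : EuclideanSpace ℂ G := toLp 2 fun y => if x * y⁻¹ ∈ A then 1 else 0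
    have h1 : ∀ i, ‖T A (w i) x‖ = ‖inner ℂ (w i) k‖ := fun i => by
      rw [norm_inner_symm, PiLp.inner_apply, T_apply]
      congr 1
      rw [← Fintype.sum_equiv ((Equiv.inv G).trans (Equiv.mulRight x))
        (fun a => if a ∈ A then w i (a⁻¹ * x) else 0) _ fun a => by simp [k]]
      simp
    have h2 : ‖k‖ ^ 2 = A.card := by
      rw [EuclideanSpace.norm_sq_eq, ← Fintype.sum_equiv ((Equiv.inv G).trans (Equiv.mulRight x))
        (fun a => if a ∈ A then (1 : ℝ) else 0) _ fun a => by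
          by_cases ha : a ∈ A <;> simp [k, ha]]
      simp
    simp only [h1]
    exact h2 ▸ hw.sum_inner_products_le k
  refine (sum_le_sum fun x _ => h x).trans_eq ?_
  simp [mul_comm]

theorem op_bound {D : ℕ} (hq : Quasi G D) (A : Finset G) (f : EuclideanSpace ℂ G)
    (hf : ∑ x, f x = 0) : D * ‖T A f‖ ^ 2 ≤ (A.card : ℝ) * Fintype.card G * ‖f‖ ^ 2 := by
  rcases eq_or_ne f 0 with rfl | h0
  · simp
  have hc : IsCompact {g : EuclideanSpace ℂ G | ‖g‖ = 1 ∧ ∑ x, g x = 0} := by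
    refine (isCompact_sphere (0 : EuclideanSpace ℂ G) 1).of_isClosed_subset ?_ fun g hg => ?_
    · exact (isClosed_eq continuous_norm continuous_const).inter
        (isClosed_eq (by fun_prop) continuous_const)
    · simpa using hg.1
  have hn : ∀ g : EuclideanSpace ℂ G, g ≠ 0 → ∑ x, g x = 0 →
      ((‖g‖ : ℂ)⁻¹ • g) ∈ {g : EuclideanSpace ℂ G | ‖g‖ = 1 ∧ ∑ x, g x = 0} := fun g h1 h2 =>
    ⟨by simp [norm_smul, h1], by simp [← mul_sum, h2]⟩
  obtain ⟨m, hm, hmax⟩ := hc.exists_isMaxOn ⟨_, hn f h0 hf⟩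
    (f := fun g => ‖T A g‖ ^ 2) (((T A).continuous_of_finiteDimensional.norm.pow 2).continuousOn)
  set l := ‖T A m‖ ^ 2 with hl
  have hb : ∀ g : EuclideanSpace ℂ G, ∑ x, g x = 0 → ‖T A g‖ ^ 2 ≤ l * ‖g‖ ^ 2 := fun g h2 => by
    rcases eq_or_ne g 0 with rfl | h1
    · simp
    have h3 : ‖T A ((‖g‖ : ℂ)⁻¹ • g)‖ ^ 2 ≤ l := hmax (hn g h1 h2)
    have h4 : 0 < ‖g‖ := norm_pos_iff.2 h1
    rw [map_smul, norm_smul, norm_inv, Complex.norm_real, norm_norm, mul_pow, inv_pow,
      inv_mul_le_iff₀ (by positivity)] at h3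
    exact h3.trans_eq (mul_comm _ _)
  let W : Submodule ℂ (EuclideanSpace ℂ G) :=
    { carrier := {g | ∑ x, g x = 0 ∧ ‖T A g‖ ^ 2 = l * ‖g‖ ^ 2}
      zero_mem' := by simp
      add_mem' := fun {a b} ha hb' => by
        have h1 : ∑ x, (a + b) x = 0 := by simp [sum_add_distrib, ha.1, hb'.1]
        have h2 : ∑ x, (a - b) x = 0 := by simp [sum_sub_distrib, ha.1, hb'.1]
        refine ⟨h1, ?_⟩
        have h3 := hb _ h1
        have h4 := hb _ h2
        have h5 := parallelogram_law_with_norm ℂ a b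
        have h6 := parallelogram_law_with_norm ℂ (T A a) (T A b)
        rw [← map_add, ← map_sub] at h6
        have h7 := ha.2
        have h8 := hb'.2
        have h9 : l * (‖a + b‖ ^ 2 + ‖a - b‖ ^ 2) = l * (2 * (‖a‖ ^ 2 + ‖b‖ ^ 2)) := by
          congr 1
        nlinarith
      smul_mem' := fun c a ha => ⟨by simp [← mul_sum, ha.1], by
        rw [map_smul, norm_smul, norm_smul, mul_pow, mul_pow, ha.2]; ring⟩ }
  obtain ⟨ι, _, w, h1, h2, h3⟩ := hq W (fun g hg => hg.1)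
    (fun h g hg => ⟨by rw [sum_R, hg.1], by rw [T_R, norm_R, norm_R, hg.2]⟩)
    ⟨m, ⟨hm.2, by rw [hm.1]; ring⟩, fun h => by simpa [h] using hm.1⟩
  have h4 := bessel A h2
  rw [sum_congr rfl fun i _ => (h3 i).2] at h4
  simp only [h2.1, one_pow, mul_one, sum_const, card_univ, nsmul_eq_mul] at h4
  have h5 : (D : ℝ) ≤ Fintype.card ι := by exact_mod_cast h1
  have h6 : 0 ≤ l := by positivity
  calc D * ‖T A f‖ ^ 2 ≤ D * (l * ‖f‖ ^ 2) := by gcongr; exact hb f hf
    _ = D * l * ‖f‖ ^ 2 := by ring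
    _ ≤ _ := mul_le_mul_of_nonneg_right ((mul_le_mul_of_nonneg_right h5 h6).trans h4) (sq_nonneg _)

theorem gowers {D : ℕ} (hq : Quasi G D) (A : Finset G) (hA : ∀ a ∈ A, ∀ b ∈ A, a * b ∉ A) :
    D * A.card ^ 3 ≤ Fintype.card G ^ 3 := by
  classical
  rcases A.eq_empty_or_nonempty with rfl | hne
  · simp
  have hn : (0 : ℝ) < Fintype.card G := by exact_mod_cast Fintype.card_pos
  have ha : (0 : ℝ) < A.card := by exact_mod_cast hne.card_pos
  set c : ℝ := A.card / Fintype.card G with hc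
  let f : EuclideanSpace ℂ G := toLp 2 fun x => (((if x ∈ A then 1 else 0) - c : ℝ) : ℂ)
  have h0 : ∑ x : G, (if x ∈ A then (1 : ℝ) else 0) = A.card := by simp
  have hcn : c * Fintype.card G = A.card := div_mul_cancel₀ _ hn.ne'
  have h1 : ∑ x, f x = 0 := by
    simp only [f]
    rw [← Complex.ofReal_sum, sum_sub_distrib, h0, sum_const, card_univ, nsmul_eq_mul, mul_comm, hcn]
    simp
  have h2 : ‖f‖ ^ 2 ≤ A.card := by
    rw [EuclideanSpace.norm_sq_eq]
    have : ∀ x, ‖f x‖ ^ 2 = (1 - 2 * c) * (if x ∈ A then 1 else 0) + c ^ 2 := fun x => by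
      simp only [f, Complex.norm_real, Real.norm_eq_abs, sq_abs]
      split_ifs <;> ring
    simp only [this, sum_add_distrib, ← mul_sum, h0, sum_const, card_univ, nsmul_eq_mul]
    have : 0 ≤ c := by positivity
    nlinarith
  have h3 : A.card * (A.card * c) ^ 2 ≤ ‖T A f‖ ^ 2 := by
    rw [EuclideanSpace.norm_sq_eq]
    refine le_trans (Eq.le ?_) (sum_le_sum_of_subset_of_nonneg (subset_univ A) fun _ _ _ => by positivity)
    rw [sum_congr rfl (g := fun _ => (A.card * c) ^ 2), sum_const, nsmul_eq_mul]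
    intro x hx
    rw [T_apply, sum_congr rfl (g := fun _ => ((-c : ℝ) : ℂ))]
    · simp [mul_pow]
    · intro a ha'
      have : a⁻¹ * x ∉ A := fun h => hA a ha' _ h (by simpa using hx)
      simp [f, this]
  have h4 := op_bound hq A f h1
  have h5 : (D : ℝ) * (A.card * (A.card * c) ^ 2) ≤ A.card * Fintype.card G * A.card :=
    le_trans (by gcongr) (h4.trans (by gcongr))
  have h6 : (D : ℝ) * A.card ^ 3 ≤ Fintype.card G ^ 3 := by
    have h7 := mul_le_mul_of_nonneg_right h5 (sq_nonneg (Fintype.card G : ℝ))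
    have h8 : (D : ℝ) * (A.card * (A.card * c) ^ 2) * (Fintype.card G : ℝ) ^ 2
        = D * A.card ^ 3 * A.card ^ 2 := by
      rw [← hcn]; rw [hcn]; linear_combination (D * (A.card : ℝ) ^ 3 * (c * Fintype.card G + A.card)) * hcn
    rw [h8] at h7
    refine le_of_mul_le_mul_right (h7.trans_eq (by ring)) (pow_pos ha 2)
  exact_mod_cast h6

end Pool.Agent.Lib.MP_65c863_al.S4
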