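import Pool.Agent.Lib.MP_65c863_al.Main

/-! Counting and product-freeness. -/

namespace Pool.Agent.Lib.MP_65c863_al

variable {k K : Type*} [Field k] [Field K] [Algebra k K]

/-- The element attached to parameters `(u, v, c, m)`. -/
noncomputable def el (i : k × k →ₗ[k] K) (t : (k × k) × (k × k) × K × k) :
    Matrix.SpecialLinearGroup (Fin 2) K :=
  gm (i t.1) (i t.2.1) (algebraMap k K (-t.2.2.2 / sg i t.2.2.1)) t.2.2.1

theorem jne {i : k × k →ₗ[k] K} {c : K} {m : k} (hc : sg i c ≠ 0) (hm : ¬ IsSquare m) :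
    -m / sg i c ≠ 0 := by
  have : m ≠ 0 := by rintro rfl; exact hm ⟨0, by simp⟩
  exact div_ne_zero (neg_ne_zero.2 this) hc

theorem el_inj {i : k × k →ₗ[k] K} (hinj : Function.Injective i)
    (hi : ∀ x, Algebra.trace k K (i x) = 0) {t t' : (k × k) × (k × k) × K × k}
    (hc : sg i t.2.2.1 ≠ 0) (hm : ¬ IsSquare t.2.2.2)
    (hc' : sg i t'.2.2.1 ≠ 0) (hm' : ¬ IsSquare t'.2.2.2) (h : el i t = el i t') : t = t' := by
  obtain ⟨u, v, c, m⟩ := t
  obtain ⟨u', v', c', m'⟩ := t'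
  simp only [el] at *
  have j1 := jne hc hm
  have j2 := jne hc' hm'
  obtain ⟨rfl, h2, h3⟩ := gm_inj ((map_ne_zero _).2 j1) ((map_ne_zero _).2 j2) h
  have hu : u - u' = 0 := by
    apply eq_zero_of_bf hc
    intro p
    have := tr_rel hi (c := c) (c' := c) (x := u - u') (y := 0) (a := 0)
      (b := -m / sg i c - -m' / sg i c) (by rw [map_sub, map_sub, h2]; simp) p
    rw [this, zero_mul]
  obtain rfl : u = u' := sub_eq_zero.1 hu
  have hj : -m / sg i c = -m' / sg i c := by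
    apply (algebraMap k K).injective
    rw [sub_self, mul_zero] at h2
    exact sub_eq_zero.1 h2.symm
  obtain rfl : m = m' := by
    field_simp at hj
    linear_combination -hj
  have hc0 : c ≠ 0 := by rintro rfl; exact hc (sg_zero i)
  obtain rfl : v = v' := hinj (mul_right_cancel₀ hc0 (add_left_cancel h3))
  rfl

theorem el_mul [Finite k] {i : k × k →ₗ[k] K}
    (hi : ∀ x, Algebra.trace k K (i x) = 0) {t1 t2 t3 : (k × k) × (k × k) × K × k}
    (hc1 : sg i t1.2.2.1 ≠ 0) (hm1 : ¬ IsSquare t1.2.2.2)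
    (hc2 : sg i t2.2.2.1 ≠ 0) (hm2 : ¬ IsSquare t2.2.2.2)
    (hc3 : sg i t3.2.2.1 ≠ 0) (hm3 : ¬ IsSquare t3.2.2.2) (hW : t2.2.1 ≠ t1.1) :
    el i t1 * el i t2 ≠ el i t3 := by
  intro h
  obtain ⟨u1, v1, c1, m1⟩ := t1
  obtain ⟨u2, v2, c2, m2⟩ := t2
  obtain ⟨u3, v3, c3, m3⟩ := t3
  simp only [el] at *
  have n1 := jne hc1 hm1
  have n2 := jne hc2 hm2
  have n3 := jne hc3 hm3
  have q1 : -sg i c1 * (-m1 / sg i c1) = m1 := by field_simp
  have q2 : -sg i c2 * (-m2 / sg i c2) = m2 := by field_simp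
  have q3 : -sg i c3 * (-m3 / sg i c3) = m3 := by field_simp
  generalize -m1 / sg i c1 = j1 at *
  generalize -m2 / sg i c2 = j2 at *
  generalize -m3 / sg i c3 = j3 at *
  obtain ⟨a1, a2, a3, a4⟩ := gm_mul ((map_ne_zero _).2 n1) ((map_ne_zero _).2 n2)
    ((map_ne_zero _).2 n3) h
  rw [← map_sub, ← map_sub] at a1 a2 a3
  rw [← map_sub, ← map_sub, ← map_sub] at a4
  have b1 := tr_rel hi (c := c3) (c' := c1) (x := u3 - u2) (y := v2 - u1) (a := -j2)
    (b := j3 - j1 * j2) (by rw [a1]; simp)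
  have b2 := tr_rel hi (c := c2) (c' := c3) (x := v2 - u1) (y := v3 - v1) (a := j1)
    (b := j1 * j3⁻¹ - j2⁻¹) (by rw [a2]; simp)
  have b3 := tr_rel hi (c := c2) (c' := c1) (x := u3 - u2) (y := v3 - v1) (a := -j3)
    (b := j1⁻¹ * j3 - j2) (by rw [a3]; simp)
  have b4 : bf (fa i c3) (fb i c3) (fd i c3) (v3 - v1) (u3 - u2) = 0 := by
    rw [← tr_bf, a4, ← map_inv₀, ← map_inv₀, ← map_mul, map_sub, map_sub, tr_mul, tr_mul,
      tr_mul, hi, hi, hi]
    ring
  have hs := sign_lemma (a3 := fa i c3) (b3 := fb i c3) (d3 := fd i c3) hc1 hc2 n2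
    (sub_ne_zero.2 hW) b1 b2 b3 b4
  apply not_isSquare_three hm1 hm2 hm3
  rw [← q1, ← q2, ← q3]
  exact hs

theorem exists_set [Finite K] (h3 : Module.finrank k K = 3) (hk : ringChar k ≠ 2) :
    ∃ S : Finset (Matrix.SpecialLinearGroup (Fin 2) K),
      (∀ a ∈ S, ∀ b ∈ S, ∀ c ∈ S, a * b ≠ c) ∧
      ∃ h n g : ℕ, 2 * n + 1 = Nat.card k ∧ h = Nat.card k ^ 2 / 2 ∧
        Nat.card k ^ 3 ≤ g + Nat.card k ^ 2 ∧
        S.card = h * ((Nat.card k ^ 2 - h) * (g * n)) := by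
  classical
  have : Finite k := Finite.of_injective _ (algebraMap k K).injective
  have := Fintype.ofFinite k
  have := Fintype.ofFinite K
  obtain ⟨i, hinj, hi, hs⟩ := exists_iota h3
  have hkk : (Finset.univ : Finset (k × k)).card = Nat.card k ^ 2 := by
    rw [Finset.card_univ, Fintype.card_prod, Nat.card_eq_fintype_card, sq]
  obtain ⟨U, -, hU⟩ := Finset.exists_subset_card_eq (s := (Finset.univ : Finset (k × k)))
    (n := Nat.card k ^ 2 / 2) (by rw [hkk]; omega)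
  let C : Finset K := Finset.univ.filter fun c => sg i c ≠ 0
  let N : Finset k := Finset.univ.filter fun m => ¬ IsSquare m
  let P := U ×ˢ (Uᶜ ×ˢ (C ×ˢ N))
  have hP : ∀ t ∈ P, t.1 ∈ U ∧ t.2.1 ∉ U ∧ sg i t.2.2.1 ≠ 0 ∧ ¬ IsSquare t.2.2.2 := by
    intro t ht
    simpa [P, C, N] using ht
  refine ⟨P.image (el i), ?_, Nat.card k ^ 2 / 2, N.card, C.card, ?_, rfl, ?_, ?_⟩
  · intro a ha b hb c hc
    obtain ⟨t1, h1, rfl⟩ := Finset.mem_image.1 ha
    obtain ⟨t2, h2, rfl⟩ := Finset.mem_image.1 hb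
    obtain ⟨t3, h3, rfl⟩ := Finset.mem_image.1 hc
    obtain ⟨x1, -, x2, x3⟩ := hP t1 h1
    obtain ⟨-, y1, y2, y3⟩ := hP t2 h2
    obtain ⟨-, -, z2, z3⟩ := hP t3 h3
    exact el_mul hi x2 x3 y2 y3 z2 z3 fun h => y1 (h ▸ x1)
  · rw [Nat.card_eq_fintype_card]; exact card_nonsquares hk
  · have hK : Fintype.card K = Nat.card k ^ 3 := by
      rw [Module.card_eq_pow_finrank (K := k), h3, Nat.card_eq_fintype_card]
    have h1 : Cᶜ ⊆ Finset.univ.image fun x : k × k => (i x)⁻¹ := by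
      intro c hc
      have : sg i c = 0 := by simpa [C] using hc
      obtain ⟨x, hx⟩ := sg_eq_zero hinj hs this
      exact Finset.mem_image.2 ⟨x, Finset.mem_univ _, hx.symm⟩
    have h2 := (Finset.card_le_card h1).trans Finset.card_image_le
    rw [hkk, Finset.card_compl, hK] at h2
    omega
  · rw [Finset.card_image_of_injOn]
    · simp only [P, Finset.card_product, Finset.card_compl, hU]
      rw [← Finset.card_univ, hkk]
    · intro t ht t' ht' h
      obtain ⟨-, -, x2, x3⟩ := hP t ht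
      obtain ⟨-, -, y2, y3⟩ := hP t' ht'
      exact el_inj hinj hi x2 x3 y2 y3 h

end Pool.Agent.Lib.MP_65c863_al
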